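import Pool.Agent.TH578.VT.Sp

set_option autoImplicit false
set_option linter.unusedVariables false

/-! D-relations. -/

namespace Pool.Agent.TH578.VT

open Set MeasureTheory

section U
variable {k : ℕ} {Z : Type}

/-- The unary predicates of the rooted structure. -/
def UF (P : Sp k Z → ℕ → ℕ → Prop) (y : Sp k Z) (i u : ℕ) : Prop :=
  if i % 3 = 0 then y.2 (i / 3) (u + 1) = true else
    if i % 3 = 1 then y.2 (i / 3) 0 = true else P y (i / 3) u

theorem UF_zero (P : Sp k Z → ℕ → ℕ → Prop) (y : Sp k Z) (i u : ℕ) :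
    UF P y (3 * i) u ↔ y.2 i (u + 1) = true := by
  unfold UF
  have h1 : 3 * i % 3 = 0 := by omega
  have h2 : 3 * i / 3 = i := by omega
  rw [if_pos h1, h2]

theorem UF_one (P : Sp k Z → ℕ → ℕ → Prop) (y : Sp k Z) (i u : ℕ) :
    UF P y (3 * i + 1) u ↔ y.2 i 0 = true := by
  unfold UF
  have h0 : ¬ (3 * i + 1) % 3 = 0 := by omega
  have h1 : (3 * i + 1) % 3 = 1 := by omega
  have h2 : (3 * i + 1) / 3 = i := by omega
  rw [if_neg h0, if_pos h1, h2]

theorem UF_two (P : Sp k Z → ℕ → ℕ → Prop) (y : Sp k Z) (i u : ℕ) :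
    UF P y (3 * i + 2) u ↔ P y i u := by
  unfold UF
  have h0 : ¬ (3 * i + 2) % 3 = 0 := by omega
  have h1 : ¬ (3 * i + 2) % 3 = 1 := by omega
  have h2 : (3 * i + 2) / 3 = i := by omega
  rw [if_neg h0, if_neg h1, h2]

theorem UF_snd {P : Sp k Z → ℕ → ℕ → Prop} {x y : Sp k Z} (h : ∀ i u, UF P x i u ↔ UF P y i u) :
    x.2 = y.2 := by
  funext i u
  rw [Bool.eq_iff_iff]
  cases u with
  | zero => rw [← UF_one P x i 0, ← UF_one P y i 0]; exact h _ _
  | succ u => rw [← UF_zero P x i u, ← UF_zero P y i u]; exact h _ _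

theorem UF_P {P : Sp k Z → ℕ → ℕ → Prop} {x y : Sp k Z} (h : ∀ i u, UF P x i u ↔ UF P y i u) :
    ∀ i u, P x i u ↔ P y i u := by
  intro i u
  rw [← UF_two P x i u, ← UF_two P y i u]
  exact h _ _

theorem act_snd_succ (σ : Equiv.Perm ℕ) (y : Sp k Z) (i u : ℕ) :
    (act (lift σ) y).2 i (σ u + 1) = y.2 i (u + 1) := by
  have := (act_iso (lift σ) y).2 i (u + 1)
  rw [lift_succ] at this
  exact this

theorem act_snd_zero (σ : Equiv.Perm ℕ) (y : Sp k Z) (i : ℕ) :
    (act (lift σ) y).2 i 0 = y.2 i 0 := by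
  have := (act_iso (lift σ) y).2 i 0
  rw [lift_zero] at this
  exact this

theorem UF_act {P : Sp k Z → ℕ → ℕ → Prop}
    (hP : ∀ σ y i u, P (act (lift σ) y) i (σ u) ↔ P y i u) (σ : Equiv.Perm ℕ) (y : Sp k Z)
    (i u : ℕ) : UF P (act (lift σ) y) i (σ u) ↔ UF P y i u := by
  unfold UF
  rw [act_snd_succ, act_snd_zero]
  split_ifs
  · rfl
  · rfl
  · exact hP _ _ _ _

theorem m_UF [MeasurableSpace Z] {P : Sp k Z → ℕ → ℕ → Prop}
    (hP : ∀ i u, Measurable fun y => P y i u) (i u : ℕ) : Measurable fun y => UF P y i u := by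
  have hs : ∀ j m, Measurable fun y : Sp k Z => y.2 j m = true := by
    intro j m
    have h : Measurable fun y : Sp k Z => y.2 j m :=
      (measurable_pi_apply m).comp ((measurable_pi_apply j).comp measurable_snd)
    exact measurableSet_setOfPred.1 (h (measurableSet_singleton true))
  unfold UF
  by_cases h0 : i % 3 = 0
  · simp only [if_pos h0]
    exact hs _ _
  · by_cases h1 : i % 3 = 1
    · simp only [if_neg h0, if_pos h1]
      exact hs _ _
    · simp only [if_neg h0, if_neg h1]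
      exact hP _ _

end U

/-- D-relations: `D ![x, y, z, w]` says that the paths from `x` to `y` and from `z` to `w` in a tree
are disjoint. -/
structure IsD (D : (Fin 4 → ℕ) → Bool) : Prop where
  sym1 : ∀ x y z w, D ![x, y, z, w] = true → D ![y, x, z, w] = true
  sym2 : ∀ x y z w, D ![x, y, z, w] = true → D ![z, w, x, y] = true
  d2 : ∀ x y z w, D ![x, y, z, w] = true → D ![x, z, y, w] = false
  d3 : ∀ x y z w, D ![x, y, z, w] = true → ∀ u, D ![u, y, z, w] = true ∨ D ![x, y, z, u] = true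
  d4 : ∀ x y z, x ≠ z → y ≠ z → D ![x, y, z, z] = true

namespace IsD

variable {D : (Fin 4 → ℕ) → Bool} (h : IsD D)
include h

theorem sym3 {x y z w : ℕ} (hD : D ![x, y, z, w] = true) : D ![x, y, w, z] = true :=
  h.sym2 _ _ _ _ (h.sym1 _ _ _ _ (h.sym2 _ _ _ _ hD))

/-- A common element of the two pairs is impossible. -/
theorem irr (x y w : ℕ) : ¬ D ![x, y, x, w] = true := by
  intro hD
  by_cases hy : y = x
  · subst hy
    have := h.d2 _ _ _ _ hD
    rw [hD] at this
    exact absurd this (by simp)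
  · by_cases hw : w = x
    · subst hw
      have h1 := h.sym2 _ _ _ _ hD
      have := h.d2 _ _ _ _ h1
      rw [h1] at this
      exact absurd this (by simp)
    · have h1 := h.d2 _ _ _ _ hD
      have h2 := h.sym2 _ _ _ _ (h.d4 y w x hy hw)
      rw [h2] at h1
      exact absurd h1 (by simp)

theorem irr' (x y w : ℕ) : ¬ D ![x, y, w, x] = true := fun hD => h.irr x y w (h.sym3 hD)

theorem iff_rooted {x y z w : ℕ} (hx : x ≠ 0) : D ![x, y, z, w] = true ↔
    (D ![x, y, z, 0] = true ∧ D ![x, y, w, 0] = true) ∨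
      (D ![z, w, x, 0] = true ∧ D ![z, w, y, 0] = true) := by
  constructor
  · intro hD
    by_cases hb : D ![x, y, z, 0] = true
    · by_cases hb2 : D ![x, y, w, 0] = true
      · exact Or.inl ⟨hb, hb2⟩
      · right
        have h1 := h.sym3 hD
        have h2 := h.sym1 _ _ _ _ h1
        constructor
        · rcases h.d3 _ _ _ _ h2 0 with h3 | h3
          · exact h.sym2 _ _ _ _ (h.sym3 (h.sym1 _ _ _ _ h3))
          · exact absurd (h.sym1 _ _ _ _ h3) hb2
        · rcases h.d3 _ _ _ _ h1 0 with h3 | h3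
          · exact h.sym2 _ _ _ _ (h.sym3 (h.sym1 _ _ _ _ h3))
          · exact absurd h3 hb2
    · right
      have h2 := h.sym1 _ _ _ _ hD
      constructor
      · rcases h.d3 _ _ _ _ h2 0 with h3 | h3
        · exact h.sym2 _ _ _ _ (h.sym1 _ _ _ _ h3)
        · exact absurd (h.sym1 _ _ _ _ h3) hb
      · rcases h.d3 _ _ _ _ hD 0 with h3 | h3
        · exact h.sym2 _ _ _ _ (h.sym1 _ _ _ _ h3)
        · exact absurd h3 hb
  · have key : ∀ a b c d : ℕ, D ![a, b, c, 0] = true → D ![a, b, d, 0] = true →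
        D ![a, b, c, d] = true := by
      intro a b c d h1 h2
      by_contra hne
      -- `D (0, c; a, b)`, replace `0` by `d`
      have e1 : D ![0, c, a, b] = true := h.sym1 _ _ _ _ (h.sym2 _ _ _ _ h1)
      have e2 : D ![0, d, a, b] = true := h.sym1 _ _ _ _ (h.sym2 _ _ _ _ h2)
      have f1 : D ![0, c, a, d] = true := by
        rcases h.d3 _ _ _ _ e1 d with h3 | h3
        · exact absurd (h.sym2 _ _ _ _ (h.sym1 _ _ _ _ h3)) hne
        · exact h3
      have f2 : D ![0, d, a, c] = true := by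
        rcases h.d3 _ _ _ _ e2 c with h3 | h3
        · exact absurd (h.sym2 _ _ _ _ h3) hne
        · exact h3
      -- f1 : 0 c | a d ; f2 : 0 d | a c
      have f3 := h.sym3 f1
      -- 0 c | d a
      have f4 := h.d2 _ _ _ _ f3
      -- not 0 d | c a
      rw [h.sym3 f2] at f4
      exact absurd f4 (by simp)
    rintro (⟨h1, h2⟩ | ⟨h1, h2⟩)
    · exact key _ _ _ _ h1 h2
    · exact h.sym2 _ _ _ _ (key _ _ _ _ h1 h2)

end IsD

/-- The C-relation at the root. -/
def DΔ (y : Sp 4 Bool) (u v w : ℕ) : Prop := y.1 ![u + 1, v + 1, w + 1, 0] = true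

theorem lift_vec4 (σ : Equiv.Perm ℕ) (u v w : ℕ) :
    (⇑(lift σ) ∘ ![u + 1, v + 1, w + 1, 0]) = ![σ u + 1, σ v + 1, σ w + 1, 0] := by
  funext j
  fin_cases j <;> rfl

theorem vaught_D : Vaught (k := 4) (Z := Bool) IsD := by
  refine rooting' IsD DΔ (fun _ _ _ _ => False) (UF fun _ _ _ => False) ?_ ?_ ?_ ?_ ?_ ?_ ?_ ?_
  · intro u v w
    have h : Measurable fun y : Sp 4 Bool => y.1 ![u + 1, v + 1, w + 1, 0] :=
      (measurable_pi_apply _).comp measurable_fst
    exact measurableSet_setOfPred.1 (h (measurableSet_singleton true))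
  · intro i u v
    exact measurable_const
  · exact m_UF fun i u => measurable_const
  · intro σ y u v w
    unfold DΔ
    rw [← lift_vec4 σ u v w, (act_iso (lift σ) y).1]
  · intro σ y i u v
    rfl
  · exact UF_act fun σ y i u => Iff.rfl
  · intro x y hx hy h1 _ h3
    refine Prod.ext ?_ (UF_snd h3)
    have e0 : ∀ a b c, x.1 ![a, b, c, 0] = true ↔ y.1 ![a, b, c, 0] = true := by
      intro a b c
      by_cases ha : a = 0
      · subst ha
        exact ⟨fun h => absurd h (hx.irr' _ _ _), fun h => absurd h (hy.irr' _ _ _)⟩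
      by_cases hb : b = 0
      · subst hb
        exact ⟨fun h => absurd (hx.sym1 _ _ _ _ h) (hx.irr' _ _ _),
          fun h => absurd (hy.sym1 _ _ _ _ h) (hy.irr' _ _ _)⟩
      by_cases hc : c = 0
      · subst hc
        exact ⟨fun _ => hy.d4 _ _ _ ha hb, fun _ => hx.d4 _ _ _ ha hb⟩
      obtain ⟨a, rfl⟩ := Nat.exists_eq_succ_of_ne_zero ha
      obtain ⟨b, rfl⟩ := Nat.exists_eq_succ_of_ne_zero hb
      obtain ⟨c, rfl⟩ := Nat.exists_eq_succ_of_ne_zero hc
      exact h1 a b c
    funext v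
    have ev : v = ![v 0, v 1, v 2, v 3] := by
      funext j
      fin_cases j <;> rfl
    rw [ev, Bool.eq_iff_iff]
    by_cases hv : v 0 = 0
    · rw [hv]
      constructor
      · intro h
        have := (e0 (v 3) (v 2) (v 1)).1 (by
          have := hx.sym2 _ _ _ _ h
          exact hx.sym3 (hx.sym1 _ _ _ _ this))
        have := hy.sym3 (hy.sym1 _ _ _ _ this)
        exact hy.sym2 _ _ _ _ this
      · intro h
        have := (e0 (v 3) (v 2) (v 1)).2 (by
          have := hy.sym2 _ _ _ _ h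
          exact hy.sym3 (hy.sym1 _ _ _ _ this))
        have := hx.sym3 (hx.sym1 _ _ _ _ this)
        exact hx.sym2 _ _ _ _ this
    · rw [hx.iff_rooted hv, hy.iff_rooted hv, e0, e0, e0, e0]
  · intro y hy
    refine ⟨?_, ?_, ?_, ?_, ?_, ?_, ?_, ?_⟩
    · intro u w huw
      exact hy.sym2 _ _ _ _ (hy.d4 (w + 1) 0 (u + 1) (by omega) (by omega))
    · intro u v
      exact hy.irr _ _ _
    · intro u v w
      exact hy.sym1 _ _ _ _
    · intro u v w huv
      have := hy.d2 _ _ _ _ huv
      intro h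
      rw [show y.1 ![u + 1, w + 1, v + 1, 0] = true from h] at this
      exact absurd this (by simp)
    · intro u v w huv z
      rcases hy.d3 _ _ _ _ (hy.sym3 huv) (z + 1) with h | h
      · exact Or.inr (hy.sym3 h)
      · exact Or.inl (hy.sym3 h)
    · intro i u b w _
      rfl
    · intro i u b w _
      rfl
    · intro e he _ F hF
      have h2 : 2 ≤ F.card := by omega
      obtain ⟨X, hX, hXc⟩ := Finset.exists_subset_card_eq h2
      refine ⟨X, hX, by omega, by omega, ?_⟩
      intro u _ v _ w _ _ i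
      exact ⟨Iff.rfl, Iff.rfl⟩

end Pool.Agent.TH578.VT
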