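import Pool.Agent.TH578.VT.G2

set_option autoImplicit false
set_option linter.unusedVariables false

/-! Transfer of the dichotomy to the space of tuples. -/

namespace Pool.Agent.TH578.VT

open Set MeasureTheory

/-- Disjointness, lengths, labels of the branch points, labels of the points. -/
abbrev Tu : Type :=
  (ℕ → ℕ → ℕ → ℕ → Bool) × (ℕ → ℕ → ℕ → ℝ) × (ℕ → ℕ → ℕ → ℕ → Bool) × (ℕ → ℕ → Bool)

/-- coding -/
def enc (s : Tu) : Sp 4 ZT :=
  (fun v => (s.1 (v 0) (v 1) (v 2) (v 3), fun j => s.2.1 j (v 0) (v 1),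
    fun i => s.2.2.1 i (v 0) (v 1) (v 2)), s.2.2.2)

/-- decoding -/
def dec (y : Sp 4 ZT) : Tu := (cD y.1, cd y.1, cm y.1, y.2)

theorem dec_enc (s : Tu) : dec (enc s) = s := rfl

theorem cont_dec : Continuous dec := by
  have h : ∀ v : Fin 4 → ℕ, Continuous fun y : Sp 4 ZT => y.1 v := fun v =>
    (continuous_apply v).comp continuous_fst
  refine Continuous.prodMk ?_ (Continuous.prodMk ?_ (Continuous.prodMk ?_ continuous_snd))
  · exact continuous_pi fun a => continuous_pi fun b => continuous_pi fun c => continuous_pi fun e =>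
      continuous_fst.comp (h _)
  · exact continuous_pi fun j => continuous_pi fun a => continuous_pi fun b =>
      (continuous_apply j).comp (continuous_fst.comp (continuous_snd.comp (h _)))
  · exact continuous_pi fun i => continuous_pi fun a => continuous_pi fun b => continuous_pi fun c =>
      (continuous_apply i).comp (continuous_snd.comp (continuous_snd.comp (h _)))

theorem meas_dec : Measurable dec := by
  have h : ∀ v : Fin 4 → ℕ, Measurable fun y : Sp 4 ZT => y.1 v := fun v =>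
    (measurable_pi_apply v).comp measurable_fst
  refine Measurable.prodMk ?_ (Measurable.prodMk ?_ (Measurable.prodMk ?_ measurable_snd))
  · exact measurable_pi_iff.2 fun a => measurable_pi_iff.2 fun b => measurable_pi_iff.2 fun c =>
      measurable_pi_iff.2 fun e => measurable_fst.comp (h _)
  · exact measurable_pi_iff.2 fun j => measurable_pi_iff.2 fun a => measurable_pi_iff.2 fun b =>
      (measurable_pi_apply j).comp (measurable_fst.comp (measurable_snd.comp (h _)))
  · exact measurable_pi_iff.2 fun i => measurable_pi_iff.2 fun a => measurable_pi_iff.2 fun b =>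
      measurable_pi_iff.2 fun c =>
      (measurable_pi_apply i).comp (measurable_snd.comp (measurable_snd.comp (h _)))

theorem meas_enc : Measurable enc := by
  have p1 : ∀ a b c e : ℕ, Measurable fun s : Tu => s.1 a b c e := fun a b c e =>
    (measurable_pi_apply e).comp ((measurable_pi_apply c).comp ((measurable_pi_apply b).comp
      ((measurable_pi_apply a).comp measurable_fst)))
  have p2 : ∀ j a b : ℕ, Measurable fun s : Tu => s.2.1 j a b := fun j a b =>
    (measurable_pi_apply b).comp ((measurable_pi_apply a).comp ((measurable_pi_apply j).comp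
      (measurable_fst.comp measurable_snd)))
  have p3 : ∀ i a b c : ℕ, Measurable fun s : Tu => s.2.2.1 i a b c := fun i a b c =>
    (measurable_pi_apply c).comp ((measurable_pi_apply b).comp ((measurable_pi_apply a).comp
      ((measurable_pi_apply i).comp (measurable_fst.comp (measurable_snd.comp measurable_snd)))))
  refine Measurable.prodMk ?_ (measurable_snd.comp (measurable_snd.comp measurable_snd))
  refine measurable_pi_iff.2 fun v => Measurable.prodMk (p1 _ _ _ _) (Measurable.prodMk ?_ ?_)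
  · exact measurable_pi_iff.2 fun j => p2 _ _ _
  · exact measurable_pi_iff.2 fun i => p3 _ _ _ _

/-- Isomorphism of tuples. -/
def TIso (σ : Equiv.Perm ℕ) (s t : Tu) : Prop :=
  (∀ a b c e, t.1 (σ a) (σ b) (σ c) (σ e) = s.1 a b c e) ∧
  (∀ j a b, t.2.1 j (σ a) (σ b) = s.2.1 j a b) ∧
  (∀ i a b c, t.2.2.1 i (σ a) (σ b) (σ c) = s.2.2.1 i a b c) ∧
  ∀ i a, t.2.2.2 i (σ a) = s.2.2.2 i a

theorem iso_enc {σ : Equiv.Perm ℕ} {s t : Tu} (h : TIso σ s t) : IsIso σ (enc s) (enc t) := by
  refine ⟨fun v => ?_, h.2.2.2⟩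
  refine Prod.ext (h.1 _ _ _ _) (Prod.ext ?_ ?_)
  · exact funext fun j => h.2.1 j _ _
  · exact funext fun i => h.2.2.1 i _ _ _

theorem vec4 (σ : Equiv.Perm ℕ) (a b c e : ℕ) :
    (⇑σ ∘ ![a, b, c, e]) = ![σ a, σ b, σ c, σ e] := by
  funext j
  fin_cases j <;> rfl

theorem iso_dec {σ : Equiv.Perm ℕ} {x y : Sp 4 ZT} (hx : x = enc (dec x)) (hy : y = enc (dec y))
    (h : IsIso σ x y) : TIso σ (dec x) (dec y) := by
  rw [hx, hy] at h
  have key : ∀ a b c e, (enc (dec y)).1 ![σ a, σ b, σ c, σ e] = (enc (dec x)).1 ![a, b, c, e] := by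
    intro a b c e
    rw [← vec4]
    exact h.1 _
  refine ⟨fun a b c e => ?_, fun j a b => ?_, fun i a b c => ?_, h.2⟩
  · have h1 := congrArg Prod.fst (key a b c e)
    exact h1
  · have h1 := congrArg (fun z : ZT => z.2.1 j) (key a b 0 0)
    exact h1
  · have h1 := congrArg (fun z : ZT => z.2.2 i) (key a b c 0)
    exact h1

/-- The dichotomy on the space of tuples. -/
theorem vaught_Tu (B : Set Tu) (hB : MeasurableSet B) (hBi : ∀ s t σ, TIso σ s t → s ∈ B → t ∈ B)
    (hBK : ∀ s ∈ B, IsT s.1 s.2.1 s.2.2.1) :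
    (∃ f : ℕ → Tu, ∀ s ∈ B, ∃ (n : ℕ) (σ : Equiv.Perm ℕ), TIso σ (f n) s) ∨
    (∃ g : (ℕ → Bool) → Tu, Continuous g ∧ (∀ c, g c ∈ B) ∧
      ∀ c d, (∃ σ : Equiv.Perm ℕ, TIso σ (g c) (g d)) → c = d) := by
  have := pol_ZT
  have := bor_ZT
  have hPol := pol_Sp (k := 4) (Z := ZT)
  have hBor := bor_Sp (k := 4) (Z := ZT)
  set B' : Set (Sp 4 ZT) := {y | y = enc (dec y) ∧ dec y ∈ B} with hB'
  have mB' : MeasurableSet B' := by
    have e1 : MeasurableSet {y : Sp 4 ZT | y = enc (dec y)} :=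
      measurableSet_eq_fun measurable_id (meas_enc.comp meas_dec)
    exact e1.inter (meas_dec hB)
  -- images
  have himg : ∀ (σ : Equiv.Perm ℕ) (s : Tu), ∃ t, TIso σ s t ∧ enc t = act σ (enc s) := by
    intro σ s
    refine ⟨(fun a b c e => s.1 (σ.symm a) (σ.symm b) (σ.symm c) (σ.symm e),
      fun j a b => s.2.1 j (σ.symm a) (σ.symm b),
      fun i a b c => s.2.2.1 i (σ.symm a) (σ.symm b) (σ.symm c),
      fun i a => s.2.2.2 i (σ.symm a)), ?_, rfl⟩
    refine ⟨fun a b c e => ?_, fun j a b => ?_, fun i a b c => ?_, fun i a => ?_⟩ <;>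
      simp
  rcases vaught_T B' mB' (by
      rintro x y σ hxy ⟨h1, h2⟩
      have h3 := (iso_iff σ x y).1 hxy
      obtain ⟨t, ht1, ht2⟩ := himg σ (dec x)
      have h4 : y = enc t := by rw [h3, ht2, ← h1]
      have h5 : dec y = t := by rw [h4, dec_enc]
      refine ⟨?_, ?_⟩
      · rw [h5]; exact h4
      · rw [h5]; exact hBi _ _ σ ht1 h2) (by
      rintro x ⟨h1, h2⟩
      refine ⟨hBK _ h2, fun v => ?_⟩
      exact congrFun (congrArg Prod.fst h1) v) with ⟨f, hf⟩ | ⟨g, g1, g2, g3⟩
  · left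
    classical
    refine ⟨fun n => dec (f n), fun s hs => ?_⟩
    obtain ⟨n, σ, hσ⟩ := hf (enc s) ⟨rfl, hs⟩
    refine ⟨n, σ, ?_⟩
    have h1 : f n = enc (dec (f n)) := by
      have h2 := (iso_iff σ (f n) (enc s)).1 hσ
      obtain ⟨t, ht1, ht2⟩ := himg σ⁻¹ s
      have h3 : f n = enc t := by rw [ht2, h2, act_inv]
      rw [h3, dec_enc]
    exact iso_dec h1 rfl hσ
  · right
    refine ⟨fun c => dec (g c), cont_dec.comp g1, fun c => (g2 c).2, fun c d => ?_⟩
    rintro ⟨σ, hσ⟩
    refine g3 c d ⟨σ, ?_⟩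
    have := iso_enc hσ
    rw [← (g2 c).1, ← (g2 d).1] at this
    exact this

/-! ### Instances -/

/-- D-relations satisfying (D4). -/
theorem isT_of_D {D : ℕ → ℕ → ℕ → ℕ → Bool}
    (d1 : ∀ x y z w, D x y z w = true → D y x z w = true ∧ D x y w z = true ∧ D z w x y = true)
    (d2 : ∀ x y z w, D x y z w = true → D x z y w = false)
    (d3 : ∀ x y z w, D x y z w = true → ∀ u, D u y z w = true ∨ D x y z u = true)
    (d4 : ∀ x y z, x ≠ z → y ≠ z → D x y z z = true) :
    IsT D (fun _ _ _ => 0) (fun _ _ _ _ => false) := by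
  refine ⟨⟨?_, ?_, ?_, ?_, ?_, ?_⟩, ?_, ?_, ?_, ?_, ?_, ?_, ?_⟩
  · intro x y w h
    by_cases hy : y = x
    · subst hy
      have := d2 _ _ _ _ h
      rw [h] at this
      exact absurd this (by simp)
    by_cases hw : w = x
    · subst hw
      have h1 := (d1 _ _ _ _ h).2.2
      have := d2 _ _ _ _ h1
      rw [h1] at this
      exact absurd this (by simp)
    have h1 := d2 _ _ _ _ h
    rw [(d1 _ _ _ _ (d4 y w x hy hw)).2.2] at h1
    exact absurd h1 (by simp)
  · exact fun x y hxy => d4 x x y hxy hxy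
  · exact fun x y z w h => (d1 _ _ _ _ h).1
  · exact fun x y z w h => (d1 _ _ _ _ h).2.2
  · intro x y z w h h'
    have := d2 _ _ _ _ h
    rw [h'] at this
    exact absurd this (by simp)
  · exact d3
  · exact fun _ _ => rfl
  · exact fun _ _ _ => rfl
  · intro _ _ _ _ _; simp
  · intro _ _ _ _ _ h; exact absurd h (lt_irrefl _)
  · exact fun _ _ _ _ => rfl
  · exact fun _ _ _ _ => rfl
  · exact fun _ _ _ _ _ _ _ => rfl

open Classical in
/-- Metrics with the four-point condition. -/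
theorem isT_of_metric {d : ℕ → ℕ → ℝ} (h0 : ∀ x, d x x = 0) (hp : ∀ x y, x ≠ y → 0 < d x y)
    (hs : ∀ x y, d x y = d y x)
    (hf : ∀ x y z w, d x y + d z w ≤ max (d x z + d y w) (d x w + d y z)) :
    IsT (fun x y z w => decide (d x y + d z w < d x z + d y w)) (fun _ => d)
      (fun _ _ _ _ => false) := by
  have tri : ∀ x y z, d x z ≤ d x y + d y z := by
    intro x y z
    have := hf x z y y
    rw [h0, max_self] at this
    have e := hs z y
    linarith
  -- the two larger sums are equal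
  have two : ∀ x y z w, d x y + d z w < d x z + d y w → d x z + d y w = d x w + d y z := by
    intro x y z w h
    have f1 := hf x z y w
    have f2 := hf x w y z
    have e1 := hs z w
    have e2 := hs z y
    have e3 := hs w z
    have e4 := hs w y
    rcases le_max_iff.1 f1 with g1 | g1 <;> rcases le_max_iff.1 f2 with g2 | g2 <;> linarith
  refine ⟨⟨?_, ?_, ?_, ?_, ?_, ?_⟩, ?_, ?_, ?_, ?_, ?_, ?_, ?_⟩
  · intro x y w h
    have h1 := of_decide_eq_true h
    have := tri y x w
    rw [h0] at h1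
    have e1 := hs y x
    linarith
  · intro x y hxy
    refine decide_eq_true ?_
    rw [h0, h0]
    have := hp x y hxy
    linarith
  · intro x y z w h
    have h1 := of_decide_eq_true h
    refine decide_eq_true ?_
    have h2 := two _ _ _ _ h1
    have e1 := hs y x
    linarith
  · intro x y z w h
    have h1 := of_decide_eq_true h
    refine decide_eq_true ?_
    have e1 := hs z x
    have e2 := hs w y
    linarith
  · intro x y z w h h'
    have h1 := of_decide_eq_true h
    have h2 := of_decide_eq_true h'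
    have e := hs y z
    linarith
  · intro x y z w h u
    have h1 := of_decide_eq_true h
    have h2 := two _ _ _ _ h1
    by_contra hne
    rw [not_or] at hne
    have g1 : ¬ d u y + d z w < d u z + d y w := fun g => hne.1 (decide_eq_true g)
    have g2 : ¬ d x y + d z u < d x z + d y u := fun g => hne.2 (decide_eq_true g)
    -- the three sums for `u, y, z, w` and for `x, y, z, u`
    have a1 := hf u y z w
    have a2 := hf x y z u
    have a3 := hf u z y w
    have a4 := hf x u y z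
    have a5 := hf u w y z
    have a6 := hf x z y u
    have e1 := hs u y
    have e2 := hs u z
    have e3 := hs u w
    have e4 := hs u x
    have e5 := hs y z
    have e6 := hs y w
    have e7 := hs z w
    have e8 := hs x y
    have e9 := hs x z
    have e10 := hs x w
    rcases le_max_iff.1 a1 with b1 | b1 <;> rcases le_max_iff.1 a2 with b2 | b2 <;>
    rcases le_max_iff.1 a3 with b3 | b3 <;> rcases le_max_iff.1 a4 with b4 | b4 <;>
    rcases le_max_iff.1 a5 with b5 | b5 <;> rcases le_max_iff.1 a6 with b6 | b6 <;> linarith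
  · exact fun _ => h0
  · exact fun _ => hs
  · exact fun _ => hf
  · intro _ x y z w h
    exact decide_eq_true h
  · exact fun _ _ _ _ => rfl
  · exact fun _ _ _ _ => rfl
  · exact fun _ _ _ _ _ _ _ => rfl

/-- The points which are `a` or behind `a` as seen from `c`. -/
def Wall (b : ℕ → ℕ → ℕ → Bool) (a c v : ℕ) : Prop := v = a ∨ b v a c = true

/-- Disjointness of the paths of a pretree: the two pairs are separated by a wall. -/
def PD (b : ℕ → ℕ → ℕ → Bool) (x y z w : ℕ) : Prop := ∃ a c, a ≠ c ∧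
  ((Wall b a c x ∧ Wall b a c y ∧ ¬ Wall b a c z ∧ ¬ Wall b a c w) ∨
    (Wall b a c z ∧ Wall b a c w ∧ ¬ Wall b a c x ∧ ¬ Wall b a c y))

/-- Bowditch's axioms. -/
structure PT (b : ℕ → ℕ → ℕ → Bool) : Prop where
  t0 : ∀ x y, b x y x = false
  t1 : ∀ x y z, b x y z = true → b z y x = true
  t2 : ∀ x y z, b x y z = true → b x z y = false
  t3 : ∀ x y z, b x y z = true → ∀ w, w ≠ y → b x y w = true ∨ b w y z = true

namespace PT

variable {b : ℕ → ℕ → ℕ → Bool} (h : PT b)
include h

theorem t2' {x y z : ℕ} (h1 : b x y z = true) (h2 : b x z y = true) : False := by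
  have := h.t2 _ _ _ h1
  rw [h2] at this
  exact absurd this (by simp)

theorem t0' {x y : ℕ} (h1 : b x y x = true) : False := by
  rw [h.t0] at h1
  exact absurd h1 (by simp)

theorem gate {a c v u : ℕ} (hv : Wall b a c v) (hu : ¬ Wall b a c u) :
    v = a ∨ b v a u = true := by
  rcases hv with hv | hv
  · exact Or.inl hv
  · right
    rcases h.t3 _ _ _ hv u (fun e => hu (Or.inl e)) with h1 | h1
    · exact h1
    · exact absurd (Or.inr h1) hu

/-- The complement of a wall is convex. -/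
theorem compl {a c x y z : ℕ} (hac : a ≠ c) (hx : ¬ Wall b a c x) (hz : ¬ Wall b a c z)
    (hb : b x y z = true) : ¬ Wall b a c y := by
  intro hy
  by_cases hya : y = a
  · subst hya
    rcases h.t3 _ _ _ hb c (Ne.symm hac) with h1 | h1
    · exact hx (Or.inr h1)
    · exact hz (Or.inr (h.t1 _ _ _ h1))
  · have g1 := (h.gate hy hx).resolve_left hya
    have g2 := (h.gate hy hz).resolve_left hya
    rcases h.t3 _ _ _ hb a (Ne.symm hya) with h1 | h1
    · exact h.t2' h1 (h.t1 _ _ _ g1)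
    · exact h.t2' (h.t1 _ _ _ h1) (h.t1 _ _ _ g2)

/-- A wall is convex. -/
theorem convex {a c x y z : ℕ} (hx : Wall b a c x) (hz : Wall b a c z)
    (hb : b x y z = true) : Wall b a c y := by
  by_contra hy
  have hya : y ≠ a := fun e => hy (Or.inl e)
  rcases h.t3 _ _ _ hb a (Ne.symm hya) with h1 | h1
  · rcases h.gate hx hy with g | g
    · subst g
      exact h.t0' h1
    · exact h.t2' h1 g
  · rcases h.gate hz hy with g | g
    · subst g
      exact h.t0' h1
    · exact h.t2' (h.t1 _ _ _ h1) g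

theorem cross {a c a' c' p q r s : ℕ} (hac' : a' ≠ c') (p1 : Wall b a c p)
    (p2 : Wall b a' c' p) (q1 : Wall b a c q) (q2 : ¬ Wall b a' c' q) (r1 : ¬ Wall b a c r)
    (r2 : Wall b a' c' r) (s1 : ¬ Wall b a c s) (s2 : ¬ Wall b a' c' s) : False := by
  by_cases ha : Wall b a' c' a
  · have hq : q ≠ a := fun e => q2 (e ▸ ha)
    exact h.compl hac' q2 s2 ((h.gate q1 s1).resolve_left hq) ha
  · have hp : p ≠ a := fun e => ha (e ▸ p2)
    exact ha (h.convex p2 r2 ((h.gate p1 r1).resolve_left hp))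

theorem gd : GD (PD b) where
  common := by
    rintro x y w ⟨a, c, -, ⟨h1, h2, h3, h4⟩ | ⟨h1, h2, h3, h4⟩⟩
    · exact h3 h1
    · exact h3 h1
  points := by
    intro x y hxy
    refine ⟨x, y, hxy, Or.inl ⟨Or.inl rfl, Or.inl rfl, ?_, ?_⟩⟩ <;>
    · rintro (e | e)
      · exact hxy e.symm
      · exact h.t0' e
  s1 := by
    rintro x y z w ⟨a, c, h0, ⟨h1, h2, h3, h4⟩ | ⟨h1, h2, h3, h4⟩⟩
    · exact ⟨a, c, h0, Or.inl ⟨h2, h1, h3, h4⟩⟩
    · exact ⟨a, c, h0, Or.inr ⟨h1, h2, h4, h3⟩⟩
  s2 := by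
    rintro x y z w ⟨a, c, h0, h1 | h1⟩
    · exact ⟨a, c, h0, Or.inr h1⟩
    · exact ⟨a, c, h0, Or.inl h1⟩
  d2 := by
    rintro x y z w ⟨a, c, h0, h1⟩ ⟨a', c', g0, g1⟩
    rcases h1 with ⟨h1, h2, h3, h4⟩ | ⟨h1, h2, h3, h4⟩ <;>
    rcases g1 with ⟨g1, g2, g3, g4⟩ | ⟨g1, g2, g3, g4⟩
    · exact h.cross g0 h1 g1 h2 g3 h3 g2 h4 g4
    · exact h.cross g0 h2 g1 h1 g3 h4 g2 h3 g4
    · exact h.cross g0 h1 g2 h2 g4 h3 g1 h4 g3
    · exact h.cross g0 h2 g2 h1 g4 h4 g1 h3 g3
  d3 := by
    rintro x y z w ⟨a, c, h0, ⟨h1, h2, h3, h4⟩ | ⟨h1, h2, h3, h4⟩⟩ u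
    · by_cases hu : Wall b a c u
      · exact Or.inl ⟨a, c, h0, Or.inl ⟨hu, h2, h3, h4⟩⟩
      · exact Or.inr ⟨a, c, h0, Or.inl ⟨h1, h2, h3, hu⟩⟩
    · by_cases hu : Wall b a c u
      · exact Or.inr ⟨a, c, h0, Or.inr ⟨h1, hu, h3, h4⟩⟩
      · exact Or.inl ⟨a, c, h0, Or.inr ⟨h1, h2, hu, h4⟩⟩

/-- The pretree can be read off. -/
theorem iff (x y z : ℕ) : b x y z = true ↔ y ≠ x ∧ y ≠ z ∧ ¬ PD b x z y y := by
  constructor
  · intro hb
    refine ⟨?_, ?_, ?_⟩
    · rintro rfl
      have := h.t1 _ _ _ hb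
      exact h.t2' this this
    · rintro rfl
      exact h.t2' hb hb
    · rintro ⟨a, c, h0, ⟨h1, h2, h3, -⟩ | ⟨h1, -, h3, h4⟩⟩
      · exact h3 (h.convex h1 h2 hb)
      · exact h.compl h0 h3 h4 hb h1
  · rintro ⟨h1, h2, h3⟩
    by_contra hb
    apply h3
    refine ⟨y, z, h2, Or.inr ⟨Or.inl rfl, Or.inl rfl, ?_, ?_⟩⟩
    · rintro (e | e)
      · exact h1 e.symm
      · exact hb e
    · rintro (e | e)
      · exact h2 e.symm
      · exact h.t0' e

end PT

open Classical in
/-- Pretrees. -/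
theorem isT_of_pretree {b : ℕ → ℕ → ℕ → Bool} (h : PT b) :
    IsT (fun x y z w => decide (PD b x y z w)) (fun _ _ _ => 0) (fun _ _ _ _ => false) := by
  refine ⟨?_, ?_, ?_, ?_, ?_, ?_, ?_, ?_⟩
  · simp only [decide_eq_true_eq]
    exact h.gd
  · exact fun _ _ => rfl
  · exact fun _ _ _ => rfl
  · intro _ _ _ _ _; simp
  · intro _ _ _ _ _ h; exact absurd h (lt_irrefl _)
  · exact fun _ _ _ _ => rfl
  · exact fun _ _ _ _ => rfl
  · exact fun _ _ _ _ _ _ _ => rfl

end Pool.Agent.TH578.VT
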