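import Pool.Agent.TH578.VT.D

set_option autoImplicit false
set_option linter.unusedVariables false

/-! Points of trees with lengths and labelled branch points. -/

namespace Pool.Agent.TH578.VT

open Set MeasureTheory

/-- `P x y z w`: the paths `[x, y]` and `[z, w]` of a tree are disjoint. -/
structure GD (P : ℕ → ℕ → ℕ → ℕ → Prop) : Prop where
  common : ∀ x y w, ¬ P x y x w
  points : ∀ x y, x ≠ y → P x x y y
  s1 : ∀ x y z w, P x y z w → P y x z w
  s2 : ∀ x y z w, P x y z w → P z w x y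
  d2 : ∀ x y z w, P x y z w → ¬ P x z y w
  d3 : ∀ x y z w, P x y z w → ∀ u, P u y z w ∨ P x y z u

/-- `x` is strictly between the root `0` and `u`, or `x` is the root. -/
def dlt (P : ℕ → ℕ → ℕ → ℕ → Prop) (x u : ℕ) : Prop := x ≠ u ∧ ¬ P x x u 0

/-- The C-relation of the rooted tree. -/
def dΔ (P : ℕ → ℕ → ℕ → ℕ → Prop) (u v w : ℕ) : Prop := u ≠ w ∧ v ≠ w ∧ (u = v ∨ P u v w 0)

namespace GD

variable {P : ℕ → ℕ → ℕ → ℕ → Prop} (h : GD P)
include h

theorem s3 {x y z w : ℕ} (hP : P x y z w) : P x y w z :=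
  h.s2 _ _ _ _ (h.s1 _ _ _ _ (h.s2 _ _ _ _ hP))

theorem common' {x y z : ℕ} (hP : P x y z x) : False := h.common _ _ _ (h.s3 hP)

theorem common'' {x y z : ℕ} (hP : P y x z x) : False := h.common' (h.s1 _ _ _ _ hP)

/-- The paths from `x` to `x` and from `z` to `w` are disjoint if the paths from `x` to `y` and from
`z` to `w` are. -/
theorem left {x y z w : ℕ} (hP : P x y z w) : P x x z w := by
  rcases h.d3 _ _ _ _ (h.s1 _ _ _ _ hP) x with h1 | h1
  · exact h1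
  · exact (h.common'' h1).elim

theorem trans {x w z a c : ℕ} (h1 : P x w a c) (h2 : P w z a c) : P x z a c := by
  rcases h.d3 _ _ _ _ (h.s1 _ _ _ _ h1) z with h3 | h3
  · exact h.s1 _ _ _ _ h3
  · rcases h.d3 _ _ _ _ h2 x with h4 | h4
    · exact h4
    · exact absurd (h.s3 h4) (h.d2 _ _ _ _ (h.s3 h3))

/-- Both ends on the right can be replaced by the first one. -/
theorem right {x y z w : ℕ} (hP : P x y z w) : P x y z z := h.s2 _ _ _ _ (h.left (h.s2 _ _ _ _ hP))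

theorem trans_right {x y z w v : ℕ} (h1 : P x y z w) (h2 : P x y w v) : P x y z v :=
  h.s2 _ _ _ _ (h.trans (h.s2 _ _ _ _ h1) (h.s2 _ _ _ _ h2))

/-- Change of root. -/
theorem iff_rooted {x y z w : ℕ} : P x y z w ↔
    (P x y z 0 ∧ P x y w 0) ∨ (P z w x 0 ∧ P z w y 0) := by
  constructor
  · intro hP
    have e1 : P z w y 0 ∨ P x y z 0 := by
      rcases h.d3 _ _ _ _ hP 0 with h1 | h1
      · exact Or.inl (h.s3 (h.s2 _ _ _ _ h1))
      · exact Or.inr h1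
    have e2 : P z w x 0 ∨ P x y z 0 := by
      rcases h.d3 _ _ _ _ (h.s1 _ _ _ _ hP) 0 with h1 | h1
      · exact Or.inl (h.s3 (h.s2 _ _ _ _ h1))
      · exact Or.inr (h.s1 _ _ _ _ h1)
    have e3 : P z w y 0 ∨ P x y w 0 := by
      rcases h.d3 _ _ _ _ (h.s3 hP) 0 with h1 | h1
      · exact Or.inl (h.s1 _ _ _ _ (h.s3 (h.s2 _ _ _ _ h1)))
      · exact Or.inr h1
    have e4 : P z w x 0 ∨ P x y w 0 := by
      rcases h.d3 _ _ _ _ (h.s1 _ _ _ _ (h.s3 hP)) 0 with h1 | h1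
      · exact Or.inl (h.s1 _ _ _ _ (h.s3 (h.s2 _ _ _ _ h1)))
      · exact Or.inr (h.s1 _ _ _ _ h1)
    rcases e1 with a1 | a1
    · rcases e2 with a2 | a2
      · exact Or.inr ⟨a2, a1⟩
      · rcases e4 with a4 | a4
        · exact Or.inr ⟨a4, a1⟩
        · exact Or.inl ⟨a2, a4⟩
    · rcases e3 with a3 | a3
      · rcases e4 with a4 | a4
        · exact Or.inr ⟨a4, a3⟩
        · exact Or.inl ⟨a1, a4⟩
      · exact Or.inl ⟨a1, a3⟩
  · rintro (⟨h1, h2⟩ | ⟨h1, h2⟩)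
    · exact h.trans_right h1 (h.s3 h2)
    · exact h.s2 _ _ _ _ (h.trans_right h1 (h.s3 h2))

/-- A member of a cone is not below an element outside. -/
theorem up {u b w : ℕ} (h1 : P u b w 0) : ¬ dlt P u w := fun h2 => h2.2 (h.left h1)

/-- An element outside a cone which is below a member is below all members. -/
theorem down {u b w : ℕ} (h1 : P u b w 0) (h2 : dlt P w u) : dlt P w b := by
  refine ⟨?_, ?_⟩
  · rintro rfl
    exact h.common _ _ _ (h.s1 _ _ _ _ h1)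
  · intro h3
    apply h2.2
    exact h.s2 _ _ _ _ (h.trans (h.right h1) (h.s2 _ _ _ _ h3))

theorem rootdir {u b w : ℕ} (h1 : P u b w 0) : P u b 0 0 := by
  exact h.right (h.s3 h1)

theorem star {l m n : ℕ} (h1 : dlt P l m) (hnl : n ≠ l) (hn : ¬ P m l n 0) :
    dlt P l n := by
  refine ⟨Ne.symm hnl, fun h2 => ?_⟩
  rcases h.d3 _ _ _ _ h2 m with h3 | h3
  · exact hn h3
  · apply h1.2
    exact h.s3 (h.trans_right (h.s3 h2) h3)

theorem rootdir' {l m n : ℕ} (h1 : P l m 0 0) (hn : ¬ P l m n 0) : P l n 0 0 := by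
  rcases h.d3 _ _ _ _ (h.s1 _ _ _ _ h1) n with h2 | h2
  · exact h.s1 _ _ _ _ h2
  · exact absurd (h.s1 _ _ _ _ (h.s3 h2)) hn

theorem c2 {u v w : ℕ} (h1 : dΔ P u v w) : ¬ dΔ P u w v := by
  rintro ⟨g1, g2, g3⟩
  obtain ⟨f1, f2, f3⟩ := h1
  rcases f3 with f3 | f3
  · exact g1 f3
  · rcases g3 with g3 | g3
    · exact f1 g3
    · exact h.d2 _ _ _ _ f3 g3

theorem c3 {u v w : ℕ} (h1 : dΔ P u v w) (z : ℕ) : dΔ P u v z ∨ dΔ P z v w := by
  obtain ⟨f1, f2, f3⟩ := h1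
  by_cases hzv : z = v
  · subst hzv
    exact Or.inr ⟨f2, f2, Or.inl rfl⟩
  by_cases hzw : z = w
  · subst hzw
    exact Or.inl ⟨f1, f2, f3⟩
  by_cases hzu : z = u
  · subst hzu
    exact Or.inr ⟨f1, f2, f3⟩
  rcases f3 with f3 | f3
  · exact Or.inl ⟨Ne.symm hzu, Ne.symm hzv, Or.inl f3⟩
  · rcases h.d3 _ _ _ _ (h.s3 f3) z with h2 | h2
    · exact Or.inr ⟨hzw, f2, Or.inr (h.s3 h2)⟩
    · exact Or.inl ⟨Ne.symm hzu, Ne.symm hzv, Or.inr (h.s3 h2)⟩

end GD

/-- A set of points of a tree with lengths and labels of the branch points: `D x y z w` says that the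
paths `[x, y]` and `[z, w]` are disjoint, `d j x y` is the `j`-th length of the path `[x, y]`, and
`m i x y z` says that the median of `x`, `y`, `z` has the `i`-th label. -/
structure IsT (D : ℕ → ℕ → ℕ → ℕ → Bool) (d : ℕ → ℕ → ℕ → ℝ) (m : ℕ → ℕ → ℕ → ℕ → Bool) :
    Prop where
  gd : GD fun x y z w => D x y z w = true
  self : ∀ j x, d j x x = 0
  symm : ∀ j x y, d j x y = d j y x
  four : ∀ j x y z w, d j x y + d j z w ≤ max (d j x z + d j y w) (d j x w + d j y z)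
  comp : ∀ j x y z w, d j x y + d j z w < d j x z + d j y w → D x y z w = true
  msym : ∀ i x y z, m i x y z = m i y x z
  mcyc : ∀ i x y z, m i x y z = m i y z x
  mlab : ∀ i x y z w, D x z y w = false → D x w y z = false → m i x y z = m i x y w

namespace IsT

variable {D : ℕ → ℕ → ℕ → ℕ → Bool} {d : ℕ → ℕ → ℕ → ℝ} {m : ℕ → ℕ → ℕ → ℕ → Bool} (h : IsT D d m)
include h

theorem gp_eq' {u b w : ℕ} (j : ℕ) (h1 : ¬ D u b w 0 = true) (h2 : ¬ D u w b 0 = true) :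
    d j 0 u + d j 0 w - d j u w = d j 0 u + d j 0 b - d j u b := by
  have e1 := mt (h.comp j u b w 0) h1
  have e2 := mt (h.comp j u w b 0) h2
  have s1 := h.symm j w 0
  have s2 := h.symm j b 0
  linarith

theorem gp_mod {u b w : ℕ} (j : ℕ) (hP : D u b w 0 = true) :
    d j 0 b + d j 0 w - d j b w = d j 0 u + d j 0 w - d j u w := by
  have n1 : ¬ D u w b 0 = true := h.gd.d2 _ _ _ _ hP
  have n2 : ¬ D u 0 b w = true := h.gd.d2 _ _ _ _ (h.gd.s3 hP)
  have e1 := mt (h.comp j u w b 0) n1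
  have e2 := mt (h.comp j u 0 b w) n2
  have f1 := h.four j u w b 0
  have f2 := h.four j u 0 b w
  have s1 := h.symm j w 0
  have s2 := h.symm j b 0
  have s3 := h.symm j u 0
  have s4 := h.symm j b w
  rcases le_max_iff.1 f1 with g1 | g1 <;> rcases le_max_iff.1 f2 with g2 | g2 <;> linarith

theorem m23 (i x y z : ℕ) : m i x y z = m i x z y := (h.msym i x y z).trans (h.mcyc i y x z)

theorem lab_mod {u b w : ℕ} (i : ℕ) (hP : D u b w 0 = true) : m i 0 b w = m i 0 u w := by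
  have n1 : ¬ D u w b 0 = true := h.gd.d2 _ _ _ _ hP
  have n2 : ¬ D u 0 b w = true := h.gd.d2 _ _ _ _ (h.gd.s3 hP)
  rw [h.m23 i 0 b w, h.m23 i 0 u w]
  refine h.mlab i 0 w b u ?_ ?_
  · exact Bool.eq_false_of_not_eq_true fun h1 => n1 (h.gd.s3 (h.gd.s1 _ _ _ _ (h.gd.s2 _ _ _ _ h1)))
  · exact Bool.eq_false_of_not_eq_true fun h1 => n2 (h.gd.s3 (h.gd.s1 _ _ _ _ h1))

/-- Labels at a node. -/
theorem lab_node {l m' n : ℕ} (i : ℕ) (h1 : ¬ D l m' n 0 = true) (h2 : ¬ D l n m' 0 = true)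
    : m i 0 l m' = m i 0 l n := by
  refine h.mlab i 0 l m' n ?_ ?_
  · exact Bool.eq_false_of_not_eq_true fun h3 => h2 (h.gd.s3 (h.gd.s2 _ _ _ _ h3))
  · exact Bool.eq_false_of_not_eq_true fun h3 => h1 (h.gd.s3 (h.gd.s2 _ _ _ _ h3))

end IsT

/-! ### The codes -/

/-- The values: disjointness, lengths, labels. -/
abbrev ZT : Type := Bool × (ℕ → ℝ) × (ℕ → Bool)

/-- decoding -/
def cD (F : (Fin 4 → ℕ) → ZT) (x y z w : ℕ) : Bool := (F ![x, y, z, w]).1

/-- decoding -/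
def cd (F : (Fin 4 → ℕ) → ZT) (j x y : ℕ) : ℝ := (F ![x, y, 0, 0]).2.1 j

/-- decoding -/
def cm (F : (Fin 4 → ℕ) → ZT) (i x y z : ℕ) : Bool := (F ![x, y, z, 0]).2.2 i

/-- The codes of the treelike sets. -/
def KT (F : (Fin 4 → ℕ) → ZT) : Prop := IsT (cD F) (cd F) (cm F) ∧
  ∀ v, F v = (cD F (v 0) (v 1) (v 2) (v 3), fun j => cd F j (v 0) (v 1),
    fun i => cm F i (v 0) (v 1) (v 2))

/-- disjointness -/
def TP (y : Sp 4 ZT) : ℕ → ℕ → ℕ → ℕ → Prop := fun a b c e => cD y.1 a b c e = true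

/-- Twice the Gromov product. -/
def cg (y : Sp 4 ZT) (j u v : ℕ) : ℝ := cd y.1 j 0 u + cd y.1 j 0 v - cd y.1 j u v

/-- The C-relation -/
def TΔ (y : Sp 4 ZT) (u v w : ℕ) : Prop := dΔ (TP y) (u + 1) (v + 1) (w + 1)

/-- The binary relations. -/
def TS (y : Sp 4 ZT) (i u v : ℕ) : Prop :=
  if i = 0 then dlt (TP y) (u + 1) (v + 1) else
    if i = 1 then TP y (u + 1) (v + 1) 0 0 else
      if i % 2 = 0 then cm y.1 (i / 2 - 1) 0 (u + 1) (v + 1) = true else
        cg y (i / 2 - 1).unpair.1 (u + 1) (v + 1) <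
          ((Denumerable.ofNat ℚ (i / 2 - 1).unpair.2 : ℚ) : ℝ)

/-- The label of the root. -/
def TU (y : Sp 4 ZT) (i u : ℕ) : Prop := cm y.1 i 0 0 0 = true

theorem TS_zero (y : Sp 4 ZT) (u v : ℕ) : TS y 0 u v ↔ dlt (TP y) (u + 1) (v + 1) := Iff.rfl

theorem TS_one (y : Sp 4 ZT) (u v : ℕ) : TS y 1 u v ↔ TP y (u + 1) (v + 1) 0 0 := Iff.rfl

theorem TS_m (y : Sp 4 ZT) (i u v : ℕ) : TS y (2 * i + 2) u v ↔ cm y.1 i 0 (u + 1) (v + 1) = true := by
  unfold TS
  rw [if_neg (by omega), if_neg (by omega), if_pos (by omega)]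
  have : (2 * i + 2) / 2 - 1 = i := by omega
  rw [this]

theorem TS_g (y : Sp 4 ZT) (j q u v : ℕ) : TS y (2 * Nat.pair j q + 3) u v ↔
    cg y j (u + 1) (v + 1) < ((Denumerable.ofNat ℚ q : ℚ) : ℝ) := by
  unfold TS
  rw [if_neg (by omega), if_neg (by omega), if_neg (by omega)]
  have : (2 * Nat.pair j q + 3) / 2 - 1 = Nat.pair j q := by omega
  rw [this, Nat.unpair_pair]

/-- Every index is of one of four kinds. -/
theorem TS_cases (i : ℕ) : i = 0 ∨ i = 1 ∨ (∃ k, i = 2 * k + 2) ∨ ∃ j q, i = 2 * Nat.pair j q + 3 := by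
  by_cases h0 : i = 0
  · exact Or.inl h0
  by_cases h1 : i = 1
  · exact Or.inr (Or.inl h1)
  by_cases h2 : i % 2 = 0
  · exact Or.inr (Or.inr (Or.inl ⟨i / 2 - 1, by omega⟩))
  · refine Or.inr (Or.inr (Or.inr ⟨(i / 2 - 1).unpair.1, (i / 2 - 1).unpair.2, ?_⟩))
    rw [Nat.pair_unpair]
    omega

theorem act4 (τ : Equiv.Perm ℕ) (y : Sp 4 ZT) (a b c e : ℕ) :
    (act τ y).1 ![τ a, τ b, τ c, τ e] = y.1 ![a, b, c, e] := by
  have : (⇑τ ∘ ![a, b, c, e]) = ![τ a, τ b, τ c, τ e] := by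
    funext j
    fin_cases j <;> rfl
  rw [← this]
  exact (act_iso τ y).1 _

theorem act_cD (σ : Equiv.Perm ℕ) (y : Sp 4 ZT) (a b c e : ℕ) :
    cD (act (lift σ) y).1 (lift σ a) (lift σ b) (lift σ c) (lift σ e) = cD y.1 a b c e :=
  congrArg Prod.fst (act4 (lift σ) y a b c e)

theorem act_cd (σ : Equiv.Perm ℕ) (y : Sp 4 ZT) (j a b : ℕ) :
    cd (act (lift σ) y).1 j (lift σ a) (lift σ b) = cd y.1 j a b := by
  have := congrArg (fun z : ZT => z.2.1 j) (act4 (lift σ) y a b 0 0)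
  rw [lift_zero] at this
  exact this

theorem act_cm (σ : Equiv.Perm ℕ) (y : Sp 4 ZT) (i a b c : ℕ) :
    cm (act (lift σ) y).1 i (lift σ a) (lift σ b) (lift σ c) = cm y.1 i a b c := by
  have := congrArg (fun z : ZT => z.2.2 i) (act4 (lift σ) y a b c 0)
  rw [lift_zero] at this
  exact this

theorem m_cD (a b c e : ℕ) : Measurable fun y : Sp 4 ZT => cD y.1 a b c e = true := by
  have h : Measurable fun y : Sp 4 ZT => cD y.1 a b c e :=
    measurable_fst.comp ((measurable_pi_apply _).comp measurable_fst)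
  exact measurableSet_setOfPred.1 (h (measurableSet_singleton true))

theorem m_cd (j a b : ℕ) : Measurable fun y : Sp 4 ZT => cd y.1 j a b :=
  (measurable_pi_apply j).comp (measurable_fst.comp (measurable_snd.comp
    ((measurable_pi_apply _).comp measurable_fst)))

theorem m_cm (i a b c : ℕ) : Measurable fun y : Sp 4 ZT => cm y.1 i a b c = true := by
  have h : Measurable fun y : Sp 4 ZT => cm y.1 i a b c :=
    (measurable_pi_apply i).comp (measurable_snd.comp (measurable_snd.comp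
      ((measurable_pi_apply _).comp measurable_fst)))
  exact measurableSet_setOfPred.1 (h (measurableSet_singleton true))

theorem m_TΔ (u v w : ℕ) : Measurable fun y : Sp 4 ZT => TΔ y u v w :=
  measurable_const.and (measurable_const.and (measurable_const.or (m_cD _ _ _ _)))

theorem m_TS (i u v : ℕ) : Measurable fun y : Sp 4 ZT => TS y i u v := by
  rcases TS_cases i with rfl | rfl | ⟨k, rfl⟩ | ⟨j, q, rfl⟩
  · exact measurable_const.and (m_cD _ _ _ _).not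
  · exact m_cD _ _ _ _
  · simp only [TS_m]
    exact m_cm _ _ _ _
  · simp only [TS_g]
    refine measurableSet_setOfPred.1 (measurableSet_lt ?_ measurable_const)
    exact ((m_cd _ _ _).add (m_cd _ _ _)).sub (m_cd _ _ _)

theorem e_TΔ (σ : Equiv.Perm ℕ) (y : Sp 4 ZT) (u v w : ℕ) :
    TΔ (act (lift σ) y) (σ u) (σ v) (σ w) ↔ TΔ y u v w := by
  have e := act_cD σ y (u + 1) (v + 1) (w + 1) 0
  rw [lift_succ, lift_succ, lift_succ, lift_zero] at e
  show (_ ∧ _ ∧ (_ ∨ cD _ _ _ _ _ = true)) ↔ (_ ∧ _ ∧ (_ ∨ cD _ _ _ _ _ = true))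
  rw [e]
  simp only [ne_eq, Nat.add_right_cancel_iff, σ.injective.eq_iff]

theorem e_TS (σ : Equiv.Perm ℕ) (y : Sp 4 ZT) (i u v : ℕ) :
    TS (act (lift σ) y) i (σ u) (σ v) ↔ TS y i u v := by
  rcases TS_cases i with rfl | rfl | ⟨k, rfl⟩ | ⟨j, q, rfl⟩
  · have e := act_cD σ y (u + 1) (u + 1) (v + 1) 0
    rw [lift_succ, lift_succ, lift_zero] at e
    show (_ ∧ ¬ cD _ _ _ _ _ = true) ↔ (_ ∧ ¬ cD _ _ _ _ _ = true)
    rw [e]
    simp only [ne_eq, Nat.add_right_cancel_iff, σ.injective.eq_iff]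
  · have e := act_cD σ y (u + 1) (v + 1) 0 0
    rw [lift_succ, lift_succ, lift_zero] at e
    show (cD _ _ _ _ _ = true) ↔ (cD _ _ _ _ _ = true)
    rw [e]
  · have e := act_cm σ y k 0 (u + 1) (v + 1)
    rw [lift_succ, lift_succ, lift_zero] at e
    rw [TS_m, TS_m, e]
  · have e1 := act_cd σ y j 0 (u + 1)
    have e2 := act_cd σ y j 0 (v + 1)
    have e3 := act_cd σ y j (u + 1) (v + 1)
    rw [lift_succ, lift_zero] at e1 e2
    rw [lift_succ, lift_succ] at e3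
    rw [TS_g, TS_g]
    unfold cg
    rw [e1, e2, e3]

theorem e_TU (σ : Equiv.Perm ℕ) (y : Sp 4 ZT) (i u : ℕ) :
    TU (act (lift σ) y) i (σ u) ↔ TU y i u := by
  have e := act_cm σ y i 0 0 0
  rw [lift_zero] at e
  show (cm _ _ _ _ _ = true) ↔ (cm _ _ _ _ _ = true)
  rw [e]

end Pool.Agent.TH578.VT
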