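import Pool.Agent.TH578.VT.P

set_option autoImplicit false
set_option linter.unusedVariables false

/-! Countable zero-hyperbolic metric spaces. -/

namespace Pool.Agent.TH578.VT

open Set MeasureTheory

/-- Metrics satisfying the four-point condition: the metrics of the countable subspaces of real
trees. -/
structure IsM (d : (Fin 2 → ℕ) → ℝ) : Prop where
  self : ∀ x, d ![x, x] = 0
  pos : ∀ x y, x ≠ y → 0 < d ![x, y]
  symm : ∀ x y, d ![x, y] = d ![y, x]
  tri : ∀ x y z, d ![x, z] ≤ d ![x, y] + d ![y, z]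
  four : ∀ x y z w, d ![x, y] + d ![z, w] ≤
    max (d ![x, z] + d ![y, w]) (d ![x, w] + d ![y, z])

/-- Twice the Gromov product at the root `0`. -/
def gp (d : (Fin 2 → ℕ) → ℝ) (u v : ℕ) : ℝ := d ![0, u] + d ![0, v] - d ![u, v]

/-- The C-relation of the rooted space. -/
def gΔ (d : (Fin 2 → ℕ) → ℝ) (u v w : ℕ) : Prop :=
  u ≠ w ∧ v ≠ w ∧ (u = v ∨ gp d u w < gp d u v)

namespace IsM

variable {d : (Fin 2 → ℕ) → ℝ} (h : IsM d)
include h

theorem gsymm (u v : ℕ) : gp d u v = gp d v u := by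
  unfold gp
  rw [h.symm u v]
  ring

theorem gultra (u v w : ℕ) : min (gp d u v) (gp d v w) ≤ gp d u w := by
  have h4 := h.four u w v 0
  have e1 : d ![v, 0] = d ![0, v] := h.symm v 0
  have e2 : d ![w, 0] = d ![0, w] := h.symm w 0
  have e3 : d ![u, 0] = d ![0, u] := h.symm u 0
  have e4 : d ![w, v] = d ![v, w] := h.symm w v
  rw [e1, e2, e3, e4] at h4
  unfold gp
  rcases le_max_iff.1 h4 with h5 | h5
  · exact (min_le_left _ _).trans (by linarith)
  · exact (min_le_right _ _).trans (by linarith)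

theorem giso {u v w : ℕ} (h1 : gp d u w < gp d u v) : gp d v w = gp d u w := by
  have a1 := h.gultra v u w
  have a2 := h.gultra u v w
  rw [h.gsymm v u] at a1
  rcases min_le_iff.1 a2 with a3 | a3
  · exact absurd h1 (not_lt.2 a3)
  · rcases min_le_iff.1 a1 with a4 | a4
    · exact absurd h1 (not_lt.2 (a4.trans a3))
    · exact le_antisymm a3 a4

end IsM

/-- The C-relation on the points other than the root. -/
def MΔ (y : Sp 2 ℝ) (u v w : ℕ) : Prop := gΔ y.1 (u + 1) (v + 1) (w + 1)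

/-- The Gromov products, compared with the rational numbers. -/
def MS (y : Sp 2 ℝ) (i u v : ℕ) : Prop := gp y.1 (u + 1) (v + 1) < ((Denumerable.ofNat ℚ i : ℚ) : ℝ)

theorem lift_vec2 (τ : Equiv.Perm ℕ) (u v : ℕ) : (⇑τ ∘ ![u, v]) = ![τ u, τ v] := by
  funext j
  fin_cases j <;> rfl

theorem act_d (τ : Equiv.Perm ℕ) (y : Sp 2 ℝ) (u v : ℕ) :
    (act τ y).1 ![τ u, τ v] = y.1 ![u, v] := by
  rw [← lift_vec2 τ u v]
  exact (act_iso τ y).1 _

theorem act_gp (σ : Equiv.Perm ℕ) (y : Sp 2 ℝ) (u v : ℕ) :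
    gp (act (lift σ) y).1 (σ u + 1) (σ v + 1) = gp y.1 (u + 1) (v + 1) := by
  have e1 := act_d (lift σ) y 0 (u + 1)
  have e2 := act_d (lift σ) y 0 (v + 1)
  have e3 := act_d (lift σ) y (u + 1) (v + 1)
  rw [lift_zero, lift_succ] at e1 e2
  rw [lift_succ, lift_succ] at e3
  unfold gp
  rw [e1, e2, e3]

theorem m_gp (u v : ℕ) : Measurable fun y : Sp 2 ℝ => gp y.1 u v := by
  have h : ∀ t : Fin 2 → ℕ, Measurable fun y : Sp 2 ℝ => y.1 t := fun t =>
    (measurable_pi_apply t).comp measurable_fst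
  exact ((h _).add (h _)).sub (h _)

theorem gp_eq {a b : ℝ} (h : ∀ i : ℕ, a < ((Denumerable.ofNat ℚ i : ℚ) : ℝ) ↔
    b < ((Denumerable.ofNat ℚ i : ℚ) : ℝ)) : a = b := by
  have h' : ∀ q : ℚ, a < (q : ℝ) ↔ b < (q : ℝ) := by
    intro q
    have := h (@Encodable.encode ℚ Denumerable.toEncodable q)
    rw [Denumerable.ofNat_encode] at this
    exact this
  by_contra hne
  rcases lt_or_gt_of_ne hne with h1 | h1
  · obtain ⟨q, h2, h3⟩ := exists_rat_btwn h1
    exact absurd ((h' q).1 h2) (not_lt.2 h3.le)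
  · obtain ⟨q, h2, h3⟩ := exists_rat_btwn h1
    exact absurd ((h' q).2 h2) (not_lt.2 h3.le)

theorem vaught_M : Vaught (k := 2) (Z := ℝ) IsM := by
  refine rooting' IsM MΔ MS (UF fun _ _ _ => False) ?_ ?_ ?_ ?_ ?_ ?_ ?_ ?_
  · intro u v w
    exact measurable_const.and (measurable_const.and
      (measurable_const.or (measurableSet_setOfPred.1 (measurableSet_lt (m_gp _ _) (m_gp _ _)))))
  · intro i u v
    exact measurableSet_setOfPred.1 (measurableSet_lt (m_gp _ _) measurable_const)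
  · exact m_UF fun i u => measurable_const
  · intro σ y u v w
    show (_ ∧ _ ∧ (_ ∨ _)) ↔ (_ ∧ _ ∧ (_ ∨ _))
    rw [act_gp, act_gp]
    simp only [ne_eq, Nat.add_right_cancel_iff, σ.injective.eq_iff]
  · intro σ y i u v
    show (_ < _) ↔ (_ < _)
    rw [act_gp]
  · exact UF_act fun σ y i u => Iff.rfl
  · intro x y hx hy h1 h2 h3
    refine Prod.ext ?_ (UF_snd h3)
    have eg : ∀ u v, gp x.1 (u + 1) (v + 1) = gp y.1 (u + 1) (v + 1) := fun u v =>
      gp_eq fun i => h2 i u v
    have e0 : ∀ u, x.1 ![0, u] = y.1 ![0, u] := by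
      intro u
      cases u with
      | zero => exact (hx.self 0).trans (hy.self 0).symm
      | succ u =>
        have := eg u u
        unfold gp at this
        rw [hx.self, hy.self] at this
        linarith
    funext v
    have ev : v = ![v 0, v 1] := by
      funext j
      fin_cases j <;> rfl
    rw [ev]
    by_cases ha : v 0 = 0
    · rw [ha]; exact e0 _
    by_cases hc : v 1 = 0
    · rw [hc, hx.symm, hy.symm]; exact e0 _
    obtain ⟨a, ha'⟩ := Nat.exists_eq_succ_of_ne_zero ha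
    obtain ⟨c, hc'⟩ := Nat.exists_eq_succ_of_ne_zero hc
    rw [ha', hc']
    have := eg a c
    unfold gp at this
    have e1 := e0 (a + 1)
    have e2 := e0 (c + 1)
    show x.1 ![a + 1, c + 1] = y.1 ![a + 1, c + 1]
    linarith
  · intro y hy
    refine ⟨?_, ?_, ?_, ?_, ?_, ?_, ?_, ?_⟩
    · intro u w huw
      have : u + 1 ≠ w + 1 := fun e => huw (Nat.succ_injective e)
      exact ⟨this, this, Or.inl rfl⟩
    · rintro u v ⟨h1, -, -⟩
      exact h1 rfl
    · rintro u v w ⟨h1, h2, h3⟩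
      refine ⟨h2, h1, ?_⟩
      rcases h3 with h3 | h3
      · exact Or.inl h3.symm
      · right
        rw [hy.giso h3, hy.gsymm (v + 1) (u + 1)]
        exact h3
    · rintro u v w ⟨h1, h2, h3⟩ ⟨g1, g2, g3⟩
      rcases h3 with h3 | h3
      · exact g1 h3
      · rcases g3 with g3 | g3
        · exact h1 g3
        · exact lt_asymm h3 g3
    · rintro u v w ⟨h1, h2, h3⟩ z
      by_cases hzv : z = v
      · subst hzv
        exact Or.inr ⟨h2, h2, Or.inl rfl⟩
      by_cases hzw : z = w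
      · subst hzw
        exact Or.inl ⟨h1, h2, h3⟩
      by_cases hzu : z = u
      · subst hzu
        exact Or.inr ⟨h1, h2, h3⟩
      have hzv' : v + 1 ≠ z + 1 := fun e => hzv (Nat.succ_injective e).symm
      have hzw' : z + 1 ≠ w + 1 := fun e => hzw (Nat.succ_injective e)
      have hzu' : u + 1 ≠ z + 1 := fun e => hzu (Nat.succ_injective e).symm
      rcases h3 with h3 | h3
      · exact Or.inl ⟨hzu', hzv', Or.inl h3⟩
      · by_cases h4 : gp y.1 (u + 1) (z + 1) < gp y.1 (u + 1) (v + 1)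
        · exact Or.inl ⟨hzu', hzv', Or.inr h4⟩
        · right
          refine ⟨hzw', h2, Or.inr ?_⟩
          have h5 := hy.giso (h3.trans_le (not_lt.1 h4))
          have h6 := hy.gultra (z + 1) (u + 1) (v + 1)
          rw [hy.gsymm (z + 1) (u + 1), min_eq_right (not_lt.1 h4)] at h6
          rw [h5]
          exact h3.trans_le h6
    · rintro i u b w ⟨h1, h2, h3⟩
      show (_ < _) ↔ (_ < _)
      rcases h3 with h3 | h3
      · rw [h3]
      · rw [hy.giso h3]
    · rintro i u b w ⟨h1, h2, h3⟩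
      show (_ < _) ↔ (_ < _)
      rw [hy.gsymm (w + 1) (b + 1), hy.gsymm (w + 1) (u + 1)]
      rcases h3 with h3 | h3
      · rw [h3]
      · rw [hy.giso h3]
    · intro e he hn F hF
      have key : ∀ l m n, l ≠ m → l ≠ n → m ≠ n →
          gp y.1 (e l + 1) (e n + 1) = gp y.1 (e l + 1) (e m + 1) := by
        intro l m n h1 h2 h3
        have n1 : e l + 1 ≠ e n + 1 := fun h => h2 (he (Nat.succ_injective h))
        have n2 : e m + 1 ≠ e n + 1 := fun h => h3 (he (Nat.succ_injective h))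
        have n3 : e l + 1 ≠ e m + 1 := fun h => h1 (he (Nat.succ_injective h))
        refine le_antisymm ?_ ?_
        · by_contra h4
          exact hn l n m h2 h1 h3.symm ⟨n3, n2.symm, Or.inr (not_le.1 h4)⟩
        · by_contra h4
          exact hn l m n h1 h2 h3 ⟨n1, n2, Or.inr (not_le.1 h4)⟩
      have h2 : 2 ≤ F.card := by omega
      obtain ⟨X, hX, hXc⟩ := Finset.exists_subset_card_eq h2
      refine ⟨X, hX, by omega, by omega, ?_⟩
      intro u hu v hv w hw hwX i
      have huw : u ≠ w := fun e => hwX (e ▸ hu)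
      have hvw : v ≠ w := fun e => hwX (e ▸ hv)
      have e1 : gp y.1 (e u + 1) (e w + 1) = gp y.1 (e v + 1) (e w + 1) := by
        by_cases huv : u = v
        · rw [huv]
        · rw [key u v w huv huw hvw, key v u w (Ne.symm huv) hvw huw, hy.gsymm]
      have e2 : gp y.1 (e w + 1) (e u + 1) = gp y.1 (e w + 1) (e v + 1) := by
        rw [hy.gsymm (e w + 1) (e u + 1), hy.gsymm (e w + 1) (e v + 1)]
        exact e1
      refine ⟨?_, ?_⟩
      · show (_ < _) ↔ (_ < _)
        rw [e1]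
      · show (_ < _) ↔ (_ < _)
        rw [e2]

end Pool.Agent.TH578.VT
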