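import Pool.Agent.TH578.VT.G
import Pool.Agent.TH578.VT.M

set_option autoImplicit false
set_option linter.unusedVariables false

/-! The perfect set dichotomy for points of trees with lengths and labels. -/

namespace Pool.Agent.TH578.VT

open Set MeasureTheory

theorem pol_ZT : PolishSpace ZT := by
  have h1 : PolishSpace (ℕ → Bool) := Pool.Agent.H533R2.VS.kis_pB ℕ
  exact inferInstanceAs (PolishSpace (Bool × (ℕ → ℝ) × (ℕ → Bool)))

theorem bor_ZT : BorelSpace ZT := by
  exact inferInstanceAs (BorelSpace (Bool × (ℕ → ℝ) × (ℕ → Bool)))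

/-- `D` is determined by the rooted relations. -/
theorem D_eq {P Q : ℕ → ℕ → ℕ → ℕ → Prop} (hP : GD P) (hQ : GD Q)
    (h1 : ∀ u v w, dΔ P (u + 1) (v + 1) (w + 1) ↔ dΔ Q (u + 1) (v + 1) (w + 1))
    (h2 : ∀ u v, dlt P (u + 1) (v + 1) ↔ dlt Q (u + 1) (v + 1))
    (h3 : ∀ u v, P (u + 1) (v + 1) 0 0 ↔ Q (u + 1) (v + 1) 0 0) (x y z w : ℕ) :
    P x y z w ↔ Q x y z w := by
  -- the rooted relation
  have key : ∀ x y z, P x y z 0 ↔ Q x y z 0 := by
    intro x y z
    by_cases hx : x = 0
    · subst hx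
      exact ⟨fun h => (hP.common' h).elim, fun h => (hQ.common' h).elim⟩
    by_cases hy : y = 0
    · subst hy
      exact ⟨fun h => (hP.common'' h).elim, fun h => (hQ.common'' h).elim⟩
    obtain ⟨u, rfl⟩ := Nat.exists_eq_succ_of_ne_zero hx
    obtain ⟨v, rfl⟩ := Nat.exists_eq_succ_of_ne_zero hy
    by_cases hz : z = 0
    · subst hz
      exact h3 u v
    obtain ⟨w, rfl⟩ := Nat.exists_eq_succ_of_ne_zero hz
    have g1 := h1 u v w
    have g2 := h2 u w
    show P (u + 1) (v + 1) (w + 1) 0 ↔ Q (u + 1) (v + 1) (w + 1) 0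
    by_cases huw : u + 1 = w + 1
    · rw [← huw]
      exact ⟨fun h => (hP.common _ _ _ h).elim, fun h => (hQ.common _ _ _ h).elim⟩
    by_cases hvw : v + 1 = w + 1
    · rw [← hvw]
      exact ⟨fun h => (hP.common _ _ _ (hP.s1 _ _ _ _ h)).elim,
        fun h => (hQ.common _ _ _ (hQ.s1 _ _ _ _ h)).elim⟩
    by_cases huv : u + 1 = v + 1
    · rw [← huv]
      unfold dlt at g2
      constructor
      · intro h
        by_contra h'
        exact (g2.2 ⟨huw, h'⟩).2 h
      · intro h
        by_contra h'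
        exact (g2.1 ⟨huw, h'⟩).2 h
    · unfold dΔ at g1
      constructor
      · intro h
        rcases (g1.1 ⟨huw, hvw, Or.inr h⟩).2.2 with h' | h'
        · exact absurd h' huv
        · exact h'
      · intro h
        rcases (g1.2 ⟨huw, hvw, Or.inr h⟩).2.2 with h' | h'
        · exact absurd h' huv
        · exact h'
  rw [hP.iff_rooted, hQ.iff_rooted, key, key, key, key]

/-- Determination of the labels. -/
theorem m_eq {D : ℕ → ℕ → ℕ → ℕ → Bool} {d d' : ℕ → ℕ → ℕ → ℝ} {m m' : ℕ → ℕ → ℕ → ℕ → Bool}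
    (h : IsT D d m) (h' : IsT D d' m') (i : ℕ)
    (h1 : ∀ u v, m i 0 (u + 1) (v + 1) = m' i 0 (u + 1) (v + 1)) (h0 : m i 0 0 0 = m' i 0 0 0)
    (x y z : ℕ) : m i x y z = m' i x y z := by
  -- one zero
  have k0 : ∀ v, m i 0 0 v = m' i 0 0 v := by
    intro v
    have e1 : D 0 0 0 v = false := Bool.eq_false_of_not_eq_true (h.gd.common 0 0 v)
    have e2 : D 0 v 0 0 = false := Bool.eq_false_of_not_eq_true (h.gd.common 0 v 0)
    rw [h.mlab i 0 0 v 0 e2 e1, h'.mlab i 0 0 v 0 e2 e1, h0]
  have k1 : ∀ u v, m i 0 u v = m' i 0 u v := by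
    intro u v
    by_cases hu : u = 0
    · rw [hu]; exact k0 v
    by_cases hv : v = 0
    · rw [hv, h.m23, h'.m23]; exact k0 u
    obtain ⟨a, rfl⟩ := Nat.exists_eq_succ_of_ne_zero hu
    obtain ⟨b, rfl⟩ := Nat.exists_eq_succ_of_ne_zero hv
    exact h1 a b
  have k2 : ∀ u v w, ¬ D u w v 0 = true → ¬ D u 0 v w = true → m i u v w = m' i u v w := by
    intro u v w g1 g2
    have f1 := Bool.eq_false_of_not_eq_true g1
    have f2 := Bool.eq_false_of_not_eq_true g2
    rw [h.mlab i u v w 0 f1 f2, h'.mlab i u v w 0 f1 f2, ← h.mcyc i 0 u v, ← h'.mcyc i 0 u v]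
    exact k1 u v
  by_cases g1 : D x z y 0 = true
  · -- `m x z y`
    have := k2 x z y (h.gd.d2 _ _ _ _ g1) (fun g => h.gd.d2 _ _ _ _ (h.gd.s3 g1) g)
    rw [h.m23 i x y z, h'.m23 i x y z]
    exact this
  · by_cases g2 : D x 0 y z = true
    · -- `m y z x`
      have g3 : D y z x 0 = true := h.gd.s2 _ _ _ _ g2
      have := k2 y z x (h.gd.d2 _ _ _ _ g3) (fun g => h.gd.d2 _ _ _ _ (h.gd.s3 g3) g)
      rw [h.mcyc i x y z, h'.mcyc i x y z]
      exact this
    · exact k2 x y z g1 g2

theorem vaught_T : Vaught (k := 4) (Z := ZT) KT := by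
  have := pol_ZT
  have := bor_ZT
  refine rooting' KT TΔ TS (UF TU) m_TΔ m_TS ?_ e_TΔ e_TS (UF_act e_TU) ?_ ?_
  · exact m_UF fun i u => m_cm _ _ _ _
  · intro x y hx hy h1 h2 h3
    refine Prod.ext ?_ (UF_snd h3)
    have hD : cD x.1 = cD y.1 := by
      funext a b c e
      rw [Bool.eq_iff_iff]
      refine D_eq hx.1.gd hy.1.gd h1 ?_ ?_ a b c e
      · intro u v
        exact h2 0 u v
      · intro u v
        exact h2 1 u v
    have hg : ∀ j u v, cg x j (u + 1) (v + 1) = cg y j (u + 1) (v + 1) := by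
      intro j u v
      refine gp_eq fun q => ?_
      rw [← TS_g, ← TS_g]
      exact h2 _ _ _
    have hd0 : ∀ j u, cd x.1 j 0 u = cd y.1 j 0 u := by
      intro j u
      cases u with
      | zero => exact (hx.1.self j 0).trans (hy.1.self j 0).symm
      | succ u =>
        have := hg j u u
        unfold cg at this
        rw [hx.1.self, hy.1.self] at this
        linarith
    have hd : cd x.1 = cd y.1 := by
      funext j a b
      by_cases ha : a = 0
      · rw [ha]; exact hd0 j b
      by_cases hb : b = 0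
      · rw [hb, hx.1.symm, hy.1.symm]; exact hd0 j a
      obtain ⟨a, rfl⟩ := Nat.exists_eq_succ_of_ne_zero ha
      obtain ⟨b, rfl⟩ := Nat.exists_eq_succ_of_ne_zero hb
      have := hg j a b
      unfold cg at this
      have e1 := hd0 j (a + 1)
      have e2 := hd0 j (b + 1)
      show cd x.1 j (a + 1) (b + 1) = cd y.1 j (a + 1) (b + 1)
      linarith
    have hm : cm x.1 = cm y.1 := by
      funext i a b c
      have hy' : IsT (cD x.1) (cd y.1) (cm y.1) := hD ▸ hy.1
      refine m_eq hx.1 hy' i ?_ ?_ a b c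
      · intro u v
        rw [Bool.eq_iff_iff, ← TS_m, ← TS_m]
        exact h2 _ _ _
      · rw [Bool.eq_iff_iff]
        exact UF_P h3 i 0
    funext v
    rw [hx.2 v, hy.2 v, hD, hd, hm]
  · intro y hy
    have hG : GD (TP y) := hy.1.gd
    refine ⟨?_, ?_, ?_, ?_, ?_, ?_, ?_, ?_⟩
    · intro u w huw
      have : u + 1 ≠ w + 1 := fun e => huw (Nat.succ_injective e)
      exact ⟨this, this, Or.inl rfl⟩
    · rintro u v ⟨h1, -, -⟩
      exact h1 rfl
    · rintro u v w ⟨h1, h2, h3⟩
      refine ⟨h2, h1, ?_⟩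
      rcases h3 with h3 | h3
      · exact Or.inl h3.symm
      · exact Or.inr (hG.s1 _ _ _ _ h3)
    · intro u v w
      exact hG.c2
    · intro u v w h z
      exact hG.c3 h (z + 1)
    · rintro i u b w ⟨h1, h2, h3⟩
      rcases h3 with h3 | h3
      · rw [Nat.succ_injective h3]
      have h3' : TP y (b + 1) (u + 1) (w + 1) 0 := hG.s1 _ _ _ _ h3
      rcases TS_cases i with rfl | rfl | ⟨k, rfl⟩ | ⟨j, q, rfl⟩
      · rw [TS_zero, TS_zero]
        exact ⟨fun h => absurd h (hG.up h3'), fun h => absurd h (hG.up h3)⟩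
      · rw [TS_one, TS_one]
        exact ⟨fun h => hG.trans (hG.rootdir h3) h, fun h => hG.trans (hG.rootdir h3') h⟩
      · rw [TS_m, TS_m, hy.1.lab_mod k h3]
      · rw [TS_g, TS_g]
        have := hy.1.gp_mod j h3
        unfold cg
        rw [this]
    · rintro i u b w ⟨h1, h2, h3⟩
      rcases h3 with h3 | h3
      · rw [Nat.succ_injective h3]
      have h3' : TP y (b + 1) (u + 1) (w + 1) 0 := hG.s1 _ _ _ _ h3
      rcases TS_cases i with rfl | rfl | ⟨k, rfl⟩ | ⟨j, q, rfl⟩
      · rw [TS_zero, TS_zero]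
        exact ⟨fun h => hG.down h3' h, fun h => hG.down h3 h⟩
      · rw [TS_one, TS_one]
        refine ⟨fun h => ?_, fun h => ?_⟩
        · exact hG.s1 _ _ _ _ (hG.trans (hG.rootdir h3) (hG.s1 _ _ _ _ h))
        · exact hG.s1 _ _ _ _ (hG.trans (hG.rootdir h3') (hG.s1 _ _ _ _ h))
      · rw [TS_m, TS_m, hy.1.m23 k 0 (w + 1) (b + 1), hy.1.m23 k 0 (w + 1) (u + 1),
          hy.1.lab_mod k h3]
      · rw [TS_g, TS_g]
        have := hy.1.gp_mod j h3
        have e1 := hy.1.symm j (w + 1) (b + 1)
        have e2 := hy.1.symm j (w + 1) (u + 1)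
        have e3 : cg y j (w + 1) (b + 1) = cg y j (w + 1) (u + 1) := by
          unfold cg
          linarith
        rw [e3]
    · intro e he hn F hF
      have hn' : ∀ l m n, l ≠ m → l ≠ n → m ≠ n → ¬ TP y (e l + 1) (e m + 1) (e n + 1) 0 := by
        intro l m n h1 h2 h3 h4
        refine hn l m n h1 h2 h3 ⟨?_, ?_, Or.inr h4⟩
        · exact fun h => h2 (he (Nat.succ_injective h))
        · exact fun h => h3 (he (Nat.succ_injective h))
      have star : ∀ l m, l ≠ m → dlt (TP y) (e l + 1) (e m + 1) →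
          ∀ n, n ≠ l → dlt (TP y) (e l + 1) (e n + 1) := by
        intro l m hlm hlt n hnl
        by_cases hnm : n = m
        · rw [hnm]; exact hlt
        refine hG.star hlt (fun h => hnl (he (Nat.succ_injective h))) ?_
        exact hn' m l n (Ne.symm hlm) (Ne.symm hnm) (Ne.symm hnl)
      -- all the other relations are constant
      have uni : ∀ i, i ≠ 0 → ∀ u v w, u ≠ w → v ≠ w →
          (TS y i (e u) (e w) ↔ TS y i (e v) (e w)) ∧ (TS y i (e w) (e u) ↔ TS y i (e w) (e v)) := by
        intro i hi u v w huw hvw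
        by_cases huv : u = v
        · rw [huv]
          exact ⟨Iff.rfl, Iff.rfl⟩
        have n1 := hn' w u v (Ne.symm huw) (Ne.symm hvw) huv
        have n2 := hn' w v u (Ne.symm hvw) (Ne.symm huw) (Ne.symm huv)
        have n3 := hn' u v w huv huw hvw
        have n4 := hn' v u w (Ne.symm huv) hvw huw
        have n5 := hn' u w v huw huv (Ne.symm hvw)
        have n6 := hn' v w u hvw (Ne.symm huv) (Ne.symm huw)
        rcases TS_cases i with h0 | rfl | ⟨k, rfl⟩ | ⟨j, q, rfl⟩
        · exact absurd h0 hi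
        · simp only [TS_one]
          have key : TP y (e w + 1) (e u + 1) 0 0 ↔ TP y (e w + 1) (e v + 1) 0 0 :=
            ⟨fun h => hG.rootdir' h n1, fun h => hG.rootdir' h n2⟩
          refine ⟨⟨fun h => ?_, fun h => ?_⟩, key⟩
          · exact hG.s1 _ _ _ _ (key.1 (hG.s1 _ _ _ _ h))
          · exact hG.s1 _ _ _ _ (key.2 (hG.s1 _ _ _ _ h))
        · simp only [TS_m]
          have key : cm y.1 k 0 (e w + 1) (e u + 1) = cm y.1 k 0 (e w + 1) (e v + 1) :=
            hy.1.lab_node k n1 n2
          rw [hy.1.m23 k 0 (e u + 1) (e w + 1), hy.1.m23 k 0 (e v + 1) (e w + 1), key]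
          exact ⟨Iff.rfl, Iff.rfl⟩
        · simp only [TS_g]
          have key : cg y j (e w + 1) (e u + 1) = cg y j (e w + 1) (e v + 1) :=
            hy.1.gp_eq' j n2 n1
          have e1 : cg y j (e u + 1) (e w + 1) = cg y j (e w + 1) (e u + 1) := by
            have := hy.1.symm j (e u + 1) (e w + 1)
            unfold cg
            linarith
          have e2 : cg y j (e v + 1) (e w + 1) = cg y j (e w + 1) (e v + 1) := by
            have := hy.1.symm j (e v + 1) (e w + 1)
            unfold cg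
            linarith
          rw [e1, e2, key]
          exact ⟨Iff.rfl, Iff.rfl⟩
      by_cases hs : ∃ l ∈ F, ∃ m, l ≠ m ∧ dlt (TP y) (e l + 1) (e m + 1)
      · obtain ⟨l, hl, m, hlm, hlt⟩ := hs
        have hst := star l m hlm hlt
        refine ⟨F.erase l, Finset.erase_subset _ _, ?_, ?_, ?_⟩
        · rw [Finset.card_erase_of_mem hl]; omega
        · rw [Finset.card_erase_of_mem hl]; omega
        · intro u hu v hv w hw hwX i
          have hwl : w = l := by
            by_contra hne
            exact hwX (Finset.mem_erase.2 ⟨hne, hw⟩)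
          subst hwl
          have hul := (Finset.mem_erase.1 hu).1
          have hvl := (Finset.mem_erase.1 hv).1
          by_cases hi : i = 0
          · subst hi
            simp only [TS_zero]
            have hno : ∀ t, t ≠ w → ¬ dlt (TP y) (e t + 1) (e w + 1) := by
              intro t htw h1
              -- both `e w` and `e t` would be below all the others
              have h2 := hst t htw
              rcases hG.d3 _ _ _ _ (hG.points (e t + 1) (e w + 1) h1.1) 0 with h3 | h3
              · exact h2.2 (hG.s3 (hG.s2 _ _ _ _ h3))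
              · exact h1.2 h3
            exact ⟨⟨fun h => absurd h (hno u hul), fun h => absurd h (hno v hvl)⟩,
              ⟨fun _ => hst v hvl, fun _ => hst u hul⟩⟩
          · exact uni i hi u v w hul hvl
      · have h2 : 2 ≤ F.card := by omega
        obtain ⟨X, hX, hXc⟩ := Finset.exists_subset_card_eq h2
        refine ⟨X, hX, by omega, by omega, ?_⟩
        intro u hu v hv w hw hwX i
        have huw : u ≠ w := fun e => hwX (e ▸ hu)
        have hvw : v ≠ w := fun e => hwX (e ▸ hv)
        have hno : ∀ a ∈ F, ∀ c, a ≠ c → ¬ dlt (TP y) (e a + 1) (e c + 1) :=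
          fun a ha c hac h => hs ⟨a, ha, c, hac, h⟩
        by_cases hi : i = 0
        · subst hi
          simp only [TS_zero]
          exact ⟨⟨fun h => absurd h (hno u (hX hu) w huw), fun h => absurd h (hno v (hX hv) w hvw)⟩,
            ⟨fun h => absurd h (hno w hw u huw.symm), fun h => absurd h (hno w hw v hvw.symm)⟩⟩
        · exact uni i hi u v w huw hvw

end Pool.Agent.TH578.VT
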