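import Pool.Agent.TH578.VT.D

set_option autoImplicit false
set_option linter.unusedVariables false

/-! Pretrees. -/

namespace Pool.Agent.TH578.VT

open Set MeasureTheory

/-- The C-relation of a family of cones. -/
def LΔ {ι : Type} (C : ι → ℕ → Prop) (u v w : ℕ) : Prop := ∃ i, C i u ∧ C i v ∧ ¬ C i w

/-- Any two members are disjoint or comparable. -/
def Laminar {ι : Type} (C : ι → ℕ → Prop) : Prop :=
  ∀ i j x, C i x → C j x → (∀ y, C i y → C j y) ∨ ∀ y, C j y → C i y

theorem lam_irr {ι : Type} (C : ι → ℕ → Prop) (u v : ℕ) : ¬ LΔ C u v u := by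
  rintro ⟨i, h1, -, h2⟩
  exact h2 h1

theorem lam_symm {ι : Type} (C : ι → ℕ → Prop) {u v w : ℕ} (h : LΔ C u v w) : LΔ C v u w := by
  obtain ⟨i, h1, h2, h3⟩ := h
  exact ⟨i, h2, h1, h3⟩

theorem lam_c2 {ι : Type} {C : ι → ℕ → Prop} (hC : Laminar C) {u v w : ℕ} (h : LΔ C u v w) :
    ¬ LΔ C u w v := by
  obtain ⟨i, h1, h2, h3⟩ := h
  rintro ⟨j, g1, g2, g3⟩
  rcases hC i j u h1 g1 with h | h
  · exact g3 (h _ h2)
  · exact h3 (h _ g2)

theorem lam_c3 {ι : Type} {C : ι → ℕ → Prop} {u v w : ℕ} (h : LΔ C u v w) (z : ℕ) :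
    LΔ C u v z ∨ LΔ C z v w := by
  obtain ⟨i, h1, h2, h3⟩ := h
  by_cases hz : C i z
  · exact Or.inr ⟨i, hz, h2, h3⟩
  · exact Or.inl ⟨i, h1, h2, hz⟩

/-- Pretrees (betweenness relations of trees): `b ![x, y, z]` says that `y` is strictly between `x`
and `z`. -/
structure IsP (b : (Fin 3 → ℕ) → Bool) : Prop where
  irr : ∀ x y, b ![x, y, x] = false
  sym : ∀ x y z, b ![x, y, z] = true → b ![z, y, x] = true
  as : ∀ x y z, b ![x, y, z] = true → b ![x, z, y] = false
  br : ∀ x y z, b ![x, y, z] = true → ∀ w, w ≠ y → b ![x, y, w] = true ∨ b ![w, y, z] = true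

/-- `x` is strictly below `u`, with `0` as the root. -/
def plt (b : (Fin 3 → ℕ) → Bool) (x u : ℕ) : Prop := (x = 0 ∧ u ≠ 0) ∨ b ![0, x, u] = true

/-- below -/
def ple (b : (Fin 3 → ℕ) → Bool) (x u : ℕ) : Prop := x = u ∨ plt b x u

/-- The cones. -/
def PC (b : (Fin 3 → ℕ) → Bool) : Fin 3 × ℕ × ℕ → ℕ → Prop := fun i v =>
  match i with
  | (0, x, _) => ple b x v
  | (1, x, r) => plt b x r ∧ plt b x v ∧ ¬ b ![r, x, v] = true
  | (2, x, _) => v = x

namespace IsP

variable {b : (Fin 3 → ℕ) → Bool} (h : IsP b)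
include h

theorem as' {x y z : ℕ} (h1 : b ![x, y, z] = true) (h2 : b ![x, z, y] = true) : False := by
  have := h.as _ _ _ h1
  rw [h2] at this
  exact absurd this (by simp)

theorem irr' {x y : ℕ} (h1 : b ![x, y, x] = true) : False := by
  rw [h.irr] at h1
  exact absurd h1 (by simp)

theorem ne_right {x y z : ℕ} (h1 : b ![x, y, z] = true) : y ≠ z := by
  rintro rfl
  exact h.as' h1 h1

theorem ne_left {x y z : ℕ} (h1 : b ![x, y, z] = true) : y ≠ x :=
  h.ne_right (h.sym _ _ _ h1)

theorem lt_irrefl (x : ℕ) : ¬ plt b x x := by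
  rintro (⟨h1, h2⟩ | h1)
  · exact h2 h1
  · exact h.ne_right h1 rfl

theorem lt_ne_zero {x u : ℕ} (h1 : plt b x u) : u ≠ 0 := by
  rcases h1 with h1 | h1
  · exact h1.2
  · rintro rfl
    exact h.irr' h1

theorem lt_pos {x u : ℕ} (h1 : plt b x u) (hx : x ≠ 0) : b ![0, x, u] = true := by
  rcases h1 with h1 | h1
  · exact absurd h1.1 hx
  · exact h1

theorem lt_trans {x u v : ℕ} (h1 : plt b x u) (h2 : plt b u v) : plt b x v := by
  by_cases hx : x = 0
  · exact Or.inl ⟨hx, h.lt_ne_zero h2⟩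
  have hu := h.lt_ne_zero h1
  have g1 := h.lt_pos h1 hx
  have g2 := h.lt_pos h2 hu
  right
  have hvx : v ≠ x := by
    rintro rfl
    exact h.as' g1 g2
  rcases h.br _ _ _ g1 v hvx with h3 | h3
  · exact h3
  · exfalso
    -- `x` between `v` and `u`, `u` between `0` and `v`
    have g3 := h.sym _ _ _ g2
    rcases h.br _ _ _ g3 x (h.ne_right g1) with h4 | h4
    · exact h.as' h3 h4
    · exact h.as' g1 (h.sym _ _ _ h4)

theorem lt_asymm {x u : ℕ} (h1 : plt b x u) (h2 : plt b u x) : False :=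
  h.lt_irrefl x (h.lt_trans h1 h2)

theorem le_trans {x u v : ℕ} (h1 : ple b x u) (h2 : ple b u v) : ple b x v := by
  rcases h1 with rfl | h1
  · exact h2
  · rcases h2 with rfl | h2
    · exact Or.inr h1
    · exact Or.inr (h.lt_trans h1 h2)

theorem lt_of_lt_of_le {x u v : ℕ} (h1 : plt b x u) (h2 : ple b u v) : plt b x v := by
  rcases h2 with rfl | h2
  · exact h1
  · exact h.lt_trans h1 h2

theorem lt_of_le_of_lt {x u v : ℕ} (h1 : ple b x u) (h2 : plt b u v) : plt b x v := by
  rcases h1 with rfl | h1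
  · exact h2
  · exact h.lt_trans h1 h2

/-- The elements below `u` form a chain. -/
theorem linear_lt {x y u : ℕ} (h1 : plt b x u) (h2 : plt b y u) : ple b x y ∨ plt b y x := by
  by_cases hxy : x = y
  · exact Or.inl (Or.inl hxy)
  by_cases hx : x = 0
  · left; right; left
    exact ⟨hx, fun hy => hxy (hx.trans hy.symm)⟩
  by_cases hy : y = 0
  · right; left
    exact ⟨hy, hx⟩
  have g1 := h.lt_pos h1 hx
  have g2 := h.lt_pos h2 hy
  rcases h.br _ _ _ g1 y (Ne.symm hxy) with h3 | h3
  · exact Or.inl (Or.inr (Or.inr h3))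
  · right; right
    rcases h.br _ _ _ g2 x hxy with h4 | h4
    · exact h4
    · exact absurd (h.sym _ _ _ h3) (fun h5 => h.as' h5 (h.sym _ _ _ h4))

theorem linear {x y u : ℕ} (h1 : ple b x u) (h2 : ple b y u) : ple b x y ∨ plt b y x := by
  rcases h1 with rfl | h1
  · rcases h2 with rfl | h2
    · exact Or.inl (Or.inl rfl)
    · exact Or.inr h2
  · rcases h2 with rfl | h2
    · exact Or.inl (Or.inr h1)
    · exact h.linear_lt h1 h2

/-- Two elements above a common element above `x` have the same direction at `x`. -/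
theorem same {x y u v : ℕ} (h1 : plt b x y) (h2 : ple b y u) (h3 : ple b y v) :
    ¬ b ![u, x, v] = true := by
  have hyx : y ≠ x := by
    rintro rfl
    exact h.lt_irrefl _ h1
  have key : ∀ w, ple b y w → ¬ b ![w, x, y] = true := by
    intro w hw hb
    rcases hw with rfl | hw
    · exact h.irr' hb
    have hy := h.lt_ne_zero h1
    have g := h.lt_pos hw hy
    by_cases hx : x = 0
    · subst hx
      exact h.as' hb (h.sym _ _ _ g)
    · have g1 := h.lt_pos h1 hx
      rcases h.br _ _ _ g x (Ne.symm hyx) with h4 | h4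
      · exact h.as' g1 h4
      · exact h.as' hb (h.sym _ _ _ h4)
  intro hb
  rcases h.br _ _ _ hb y hyx with h4 | h4
  · exact key u h2 h4
  · exact key v h3 (h.sym _ _ _ h4)

theorem dir_trans {x u v w : ℕ} (hv : v ≠ x) (h1 : ¬ b ![u, x, v] = true)
    (h2 : ¬ b ![v, x, w] = true) : ¬ b ![u, x, w] = true := by
  intro h3
  rcases h.br _ _ _ h3 v hv with h4 | h4
  · exact h1 h4
  · exact h2 h4

theorem dir_symm {x u v : ℕ} (h1 : ¬ b ![u, x, v] = true) : ¬ b ![v, x, u] = true :=
  fun h2 => h1 (h.sym _ _ _ h2)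

theorem ne_of_lt {x u : ℕ} (h1 : plt b x u) : u ≠ x := by
  rintro rfl
  exact h.lt_irrefl _ h1

theorem laminar : Laminar (PC b) := by
  -- the mixed cases
  have m01 : ∀ x y r v, ple b x v → (plt b y r ∧ plt b y v ∧ ¬ b ![r, y, v] = true) →
      (∀ z, ple b x z → (plt b y r ∧ plt b y z ∧ ¬ b ![r, y, z] = true)) ∨
      (∀ z, (plt b y r ∧ plt b y z ∧ ¬ b ![r, y, z] = true) → ple b x z) := by
    rintro x y r v h1 ⟨h2, h3, h4⟩
    rcases h.linear h1 (Or.inr h3) with h5 | h5
    · right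
      rintro z ⟨-, h6, -⟩
      exact h.le_trans h5 (Or.inr h6)
    · left
      intro z hz
      refine ⟨h2, h.lt_of_lt_of_le h5 hz, ?_⟩
      exact h.dir_trans (h.ne_of_lt h3) h4 (h.same h5 h1 hz)
  have m11 : ∀ x r y s v, (plt b x r ∧ plt b x v ∧ ¬ b ![r, x, v] = true) →
      (plt b y s ∧ plt b y v ∧ ¬ b ![s, y, v] = true) → plt b x y →
      (∀ z, (plt b y s ∧ plt b y z ∧ ¬ b ![s, y, z] = true) →
        (plt b x r ∧ plt b x z ∧ ¬ b ![r, x, z] = true)) := by
    rintro x r y s v ⟨h1, h2, h3⟩ ⟨h4, h5, h6⟩ h7 z ⟨-, h8, h9⟩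
    refine ⟨h1, h.lt_trans h7 h8, ?_⟩
    exact h.dir_trans (h.ne_of_lt h2) h3 (h.same h7 (Or.inr h5) (Or.inr h8))
  rintro ⟨i, x, r⟩ ⟨j, y, s⟩ v h1 h2
  fin_cases i <;> fin_cases j
  · change ple b x v at h1
    change ple b y v at h2
    change (∀ z, ple b x z → ple b y z) ∨ (∀ z, ple b y z → ple b x z)
    rcases h.linear h1 h2 with h3 | h3
    · exact Or.inr fun z hz => h.le_trans h3 hz
    · exact Or.inl fun z hz => h.le_trans (Or.inr h3) hz
  · exact m01 x y s v h1 h2
  · change v = y at h2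
    subst h2
    right
    intro z hz
    change z = v at hz
    rw [hz]; exact h1
  · exact (m01 y x r v h2 h1).symm
  · change plt b x r ∧ plt b x v ∧ ¬ b ![r, x, v] = true at h1
    change plt b y s ∧ plt b y v ∧ ¬ b ![s, y, v] = true at h2
    change (∀ z, (plt b x r ∧ plt b x z ∧ ¬ b ![r, x, z] = true) →
      (plt b y s ∧ plt b y z ∧ ¬ b ![s, y, z] = true)) ∨
      (∀ z, (plt b y s ∧ plt b y z ∧ ¬ b ![s, y, z] = true) →
      (plt b x r ∧ plt b x z ∧ ¬ b ![r, x, z] = true))
    rcases h.linear_lt h1.2.1 h2.2.1 with h3 | h3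
    · rcases h3 with rfl | h3
      · left
        rintro z ⟨-, g1, g2⟩
        refine ⟨h2.1, g1, ?_⟩
        exact h.dir_trans (h.ne_of_lt h1.2.1) h2.2.2
          (h.dir_trans (h.ne_of_lt h1.1) (h.dir_symm h1.2.2) g2)
      · right
        exact m11 x r y s v h1 h2 h3
    · left
      exact m11 y s x r v h2 h1 h3
  · change v = y at h2
    subst h2
    right
    intro z hz
    change z = v at hz
    rw [hz]; exact h1
  · change v = x at h1
    subst h1
    left
    intro z hz
    change z = v at hz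
    rw [hz]; exact h2
  · change v = x at h1
    subst h1
    left
    intro z hz
    change z = v at hz
    rw [hz]; exact h2
  · change v = x at h1
    subst h1
    left
    intro z hz
    change z = v at hz
    rw [hz]; exact h2

/-- A member of a cone with at least two elements is not below an element outside. -/
theorem up {i : Fin 3 × ℕ × ℕ} {u v w : ℕ} (hu : PC b i u) (hv : PC b i v) (huv : u ≠ v)
    (hw : ¬ PC b i w) : ¬ plt b u w := by
  obtain ⟨i, x, r⟩ := i
  intro hlt
  fin_cases i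
  · exact hw (h.le_trans hu (Or.inr hlt))
  · change plt b x r ∧ plt b x u ∧ ¬ b ![r, x, u] = true at hu
    apply hw
    refine ⟨hu.1, h.lt_trans hu.2.1 hlt, ?_⟩
    exact h.dir_trans (h.ne_of_lt hu.2.1) hu.2.2 (h.same hu.2.1 (Or.inl rfl) (Or.inr hlt))
  · exact huv (Eq.trans hu (Eq.symm hv))

/-- An element outside a cone below a member is below all members. -/
theorem down {i : Fin 3 × ℕ × ℕ} {u v w : ℕ} (hu : PC b i u) (hv : PC b i v)
    (hw : ¬ PC b i w) (hlt : plt b w u) : plt b w v := by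
  obtain ⟨i, x, r⟩ := i
  fin_cases i
  · change ple b x u at hu
    change ple b x v at hv
    change ¬ ple b x w at hw
    rcases h.linear hu (Or.inr hlt) with h1 | h1
    · exact absurd h1 hw
    · exact h.lt_of_lt_of_le h1 hv
  · change plt b x r ∧ plt b x u ∧ ¬ b ![r, x, u] = true at hu
    change plt b x r ∧ plt b x v ∧ ¬ b ![r, x, v] = true at hv
    rcases h.linear_lt hlt hu.2.1 with h1 | h1
    · exact h.lt_of_le_of_lt h1 hv.2.1
    · exfalso
      apply hw
      refine ⟨hu.1, h1, ?_⟩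
      exact h.dir_trans (h.ne_of_lt hu.2.1) hu.2.2 (h.same h1 (Or.inr hlt) (Or.inl rfl))
  · have : u = v := Eq.trans hu (Eq.symm hv)
    rw [← this]; exact hlt

/-- Two members of a proper cone have the same direction at the root. -/
theorem root {i : Fin 3 × ℕ × ℕ} {u v w : ℕ} (hu : PC b i u) (hv : PC b i v)
    (hw : ¬ PC b i w) (hw0 : w ≠ 0) : ¬ b ![u, 0, v] = true := by
  obtain ⟨i, x, r⟩ := i
  fin_cases i
  · change ple b x u at hu
    change ple b x v at hv
    change ¬ ple b x w at hw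
    have hx : x ≠ 0 := by
      rintro rfl
      exact hw (Or.inr (Or.inl ⟨rfl, hw0⟩))
    exact h.same (Or.inl ⟨rfl, hx⟩) hu hv
  · change plt b x r ∧ plt b x u ∧ ¬ b ![r, x, u] = true at hu
    change plt b x r ∧ plt b x v ∧ ¬ b ![r, x, v] = true at hv
    by_cases hx : x = 0
    · subst hx
      exact h.dir_trans (h.ne_of_lt hu.1) (h.dir_symm hu.2.2) hv.2.2
    · exact h.same (Or.inl ⟨rfl, hx⟩) (Or.inr hu.2.1) (Or.inr hv.2.1)
  · have : u = v := Eq.trans hu (Eq.symm hv)
    rw [← this]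
    exact fun h1 => h.irr' h1

/-- Reconstruction. -/
theorem recon {a m c : ℕ} (ha : a ≠ 0) (hm : m ≠ 0) (hc : c ≠ 0) : b ![a, m, c] = true ↔
    a ≠ c ∧ m ≠ a ∧ m ≠ c ∧ ((b ![0, m, a] = true ∧ b ![0, m, c] = true ∧ ¬ LΔ (PC b) a c m) ∨
      (b ![0, m, a] = true ∧ ¬ b ![0, m, c] = true) ∨
      (¬ b ![0, m, a] = true ∧ b ![0, m, c] = true)) := by
  constructor
  · intro hb
    refine ⟨?_, h.ne_left hb, h.ne_right hb, ?_⟩
    · rintro rfl
      exact h.irr' hb
    by_cases h1 : b ![0, m, a] = true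
    · by_cases h2 : b ![0, m, c] = true
      · refine Or.inl ⟨h1, h2, ?_⟩
        rintro ⟨⟨i, x, r⟩, g1, g2, g3⟩
        have l1 : plt b m a := Or.inr h1
        have l2 : plt b m c := Or.inr h2
        fin_cases i
        · change ple b x a at g1
          change ple b x c at g2
          change ¬ ple b x m at g3
          rcases h.linear g1 (Or.inr l1) with h3 | h3
          · exact g3 h3
          · exact h.same h3 g1 g2 hb
        · change plt b x r ∧ plt b x a ∧ ¬ b ![r, x, a] = true at g1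
          change plt b x r ∧ plt b x c ∧ ¬ b ![r, x, c] = true at g2
          rcases h.linear_lt g1.2.1 l1 with h3 | h3
          · rcases h3 with rfl | h3
            · exact h.dir_trans (h.ne_of_lt g1.1) (h.dir_symm g1.2.2) g2.2.2 hb
            · apply g3
              refine ⟨g1.1, h3, ?_⟩
              exact h.dir_trans (h.ne_of_lt g1.2.1) g1.2.2
                (h.same h3 (Or.inr l1) (Or.inl rfl))
          · exact h.same h3 (Or.inr g1.2.1) (Or.inr g2.2.1) hb
        · change a = x at g1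
          change c = x at g2
          subst g1
          subst g2
          exact h.irr' hb
      · exact Or.inr (Or.inl ⟨h1, h2⟩)
    · right; right
      refine ⟨h1, ?_⟩
      rcases h.br _ _ _ hb 0 (Ne.symm hm) with h3 | h3
      · exact absurd (h.sym _ _ _ h3) h1
      · exact h3
  · rintro ⟨h0, h1, h2, (⟨h3, h4, h5⟩ | ⟨h3, h4⟩ | ⟨h3, h4⟩)⟩
    · by_contra hne
      apply h5
      refine ⟨(1, m, a), ⟨Or.inr h3, Or.inr h3, fun e => h.irr' e⟩, ⟨Or.inr h3, Or.inr h4, hne⟩, ?_⟩
      rintro ⟨-, e, -⟩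
      exact h.lt_irrefl _ e
    · rcases h.br _ _ _ h3 c (Ne.symm h2) with h5 | h5
      · exact absurd h5 h4
      · exact h.sym _ _ _ h5
    · rcases h.br _ _ _ h4 a (Ne.symm h1) with h5 | h5
      · exact absurd h5 h3
      · exact h5

end IsP

/-- The C-relation of the rooted pretree. -/
def PΔ (y : Sp 3 Bool) (u v w : ℕ) : Prop := LΔ (PC y.1) (u + 1) (v + 1) (w + 1)

/-- The binary relations of the rooted pretree. -/
def PS (y : Sp 3 Bool) (i u v : ℕ) : Prop :=
  if i = 0 then y.1 ![0, u + 1, v + 1] = true else y.1 ![u + 1, 0, v + 1] = true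

theorem lift_vec3 (τ : Equiv.Perm ℕ) (u v w : ℕ) : (⇑τ ∘ ![u, v, w]) = ![τ u, τ v, τ w] := by
  funext j
  fin_cases j <;> rfl

theorem act_b (τ : Equiv.Perm ℕ) (y : Sp 3 Bool) (u v w : ℕ) :
    (act τ y).1 ![τ u, τ v, τ w] = y.1 ![u, v, w] := by
  rw [← lift_vec3 τ u v w]
  exact (act_iso τ y).1 _

theorem act_plt (τ : Equiv.Perm ℕ) (h0 : τ 0 = 0) (y : Sp 3 Bool) (u v : ℕ) :
    plt (act τ y).1 (τ u) (τ v) ↔ plt y.1 u v := by
  unfold plt
  have e := act_b τ y 0 u v
  rw [h0] at e
  rw [e]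
  have e1 : ∀ x, τ x = 0 ↔ x = 0 := by
    intro x
    constructor
    · intro hx
      exact τ.injective (hx.trans h0.symm)
    · rintro rfl
      exact h0
  rw [Ne, e1, e1]

theorem act_PC (τ : Equiv.Perm ℕ) (h0 : τ 0 = 0) (y : Sp 3 Bool) (i : Fin 3) (x r v : ℕ) :
    PC (act τ y).1 (i, τ x, τ r) (τ v) ↔ PC y.1 (i, x, r) v := by
  fin_cases i
  · show (τ x = τ v ∨ plt (act τ y).1 (τ x) (τ v)) ↔ (x = v ∨ plt y.1 x v)
    rw [act_plt τ h0, τ.injective.eq_iff]
  · show (plt (act τ y).1 (τ x) (τ r) ∧ plt (act τ y).1 (τ x) (τ v) ∧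
      ¬ (act τ y).1 ![τ r, τ x, τ v] = true) ↔ _
    rw [act_plt τ h0, act_plt τ h0, act_b]
    rfl
  · show (τ v = τ x) ↔ v = x
    rw [τ.injective.eq_iff]

theorem act_LΔ (τ : Equiv.Perm ℕ) (h0 : τ 0 = 0) (y : Sp 3 Bool) (u v w : ℕ) :
    LΔ (PC (act τ y).1) (τ u) (τ v) (τ w) ↔ LΔ (PC y.1) u v w := by
  constructor
  · rintro ⟨⟨i, x, r⟩, h1, h2, h3⟩
    have ex : x = τ (τ.symm x) := (τ.apply_symm_apply x).symm
    have er : r = τ (τ.symm r) := (τ.apply_symm_apply r).symm
    rw [ex, er, act_PC τ h0] at h1 h2 h3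
    exact ⟨_, h1, h2, h3⟩
  · rintro ⟨⟨i, x, r⟩, h1, h2, h3⟩
    refine ⟨(i, τ x, τ r), ?_, ?_, ?_⟩
    · rw [act_PC τ h0]; exact h1
    · rw [act_PC τ h0]; exact h2
    · rw [act_PC τ h0]; exact h3

theorem m_b (u v w : ℕ) : Measurable fun y : Sp 3 Bool => y.1 ![u, v, w] = true := by
  have h : Measurable fun y : Sp 3 Bool => y.1 ![u, v, w] :=
    (measurable_pi_apply _).comp measurable_fst
  exact measurableSet_setOfPred.1 (h (measurableSet_singleton true))

theorem m_plt (u v : ℕ) : Measurable fun y : Sp 3 Bool => plt y.1 u v :=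
  Measurable.or measurable_const (m_b _ _ _)

theorem m_PC (i : Fin 3) (x r v : ℕ) : Measurable fun y : Sp 3 Bool => PC y.1 (i, x, r) v := by
  fin_cases i
  · exact Measurable.or measurable_const (m_plt x v)
  · exact (m_plt x r).and ((m_plt x v).and (m_b r x v).not)
  · exact measurable_const

theorem vaught_P : Vaught (k := 3) (Z := Bool) IsP := by
  refine rooting' IsP PΔ PS (UF fun _ _ _ => False) ?_ ?_ ?_ ?_ ?_ ?_ ?_ ?_
  · intro u v w
    exact Measurable.exists fun i => (m_PC i.1 i.2.1 i.2.2 _).and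
      ((m_PC i.1 i.2.1 i.2.2 _).and (m_PC i.1 i.2.1 i.2.2 _).not)
  · intro i u v
    unfold PS
    by_cases hi : i = 0
    · simp only [if_pos hi]
      exact m_b _ _ _
    · simp only [if_neg hi]
      exact m_b _ _ _
  · exact m_UF fun i u => measurable_const
  · intro σ y u v w
    exact act_LΔ (lift σ) (lift_zero σ) y (u + 1) (v + 1) (w + 1)
  · intro σ y i u v
    unfold PS
    have e1 := act_b (lift σ) y 0 (u + 1) (v + 1)
    have e2 := act_b (lift σ) y (u + 1) 0 (v + 1)
    rw [lift_zero, lift_succ, lift_succ] at e1 e2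
    rw [e1, e2]
  · exact UF_act fun σ y i u => Iff.rfl
  · intro x y hx hy h1 h2 h3
    refine Prod.ext ?_ (UF_snd h3)
    have e0 : ∀ m c, x.1 ![0, m, c] = true ↔ y.1 ![0, m, c] = true := by
      intro m c
      by_cases hm : m = 0
      · subst hm
        exact ⟨fun h => absurd rfl (hx.ne_left h), fun h => absurd rfl (hy.ne_left h)⟩
      by_cases hc : c = 0
      · subst hc
        exact ⟨fun h => (hx.irr' h).elim, fun h => (hy.irr' h).elim⟩
      obtain ⟨m, rfl⟩ := Nat.exists_eq_succ_of_ne_zero hm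
      obtain ⟨c, rfl⟩ := Nat.exists_eq_succ_of_ne_zero hc
      exact h2 0 m c
    funext v
    have ev : v = ![v 0, v 1, v 2] := by
      funext j
      fin_cases j <;> rfl
    rw [ev, Bool.eq_iff_iff]
    by_cases ha : v 0 = 0
    · rw [ha]
      exact e0 _ _
    by_cases hc : v 2 = 0
    · rw [hc]
      exact ⟨fun h => hy.sym _ _ _ ((e0 _ _).1 (hx.sym _ _ _ h)),
        fun h => hx.sym _ _ _ ((e0 _ _).2 (hy.sym _ _ _ h))⟩
    by_cases hm : v 1 = 0
    · rw [hm]
      obtain ⟨a, ha'⟩ := Nat.exists_eq_succ_of_ne_zero ha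
      obtain ⟨c, hc'⟩ := Nat.exists_eq_succ_of_ne_zero hc
      rw [ha', hc']
      exact h2 1 a c
    rw [hx.recon ha hm hc, hy.recon ha hm hc, e0, e0]
    obtain ⟨a, ha'⟩ := Nat.exists_eq_succ_of_ne_zero ha
    obtain ⟨m, hm'⟩ := Nat.exists_eq_succ_of_ne_zero hm
    obtain ⟨c, hc'⟩ := Nat.exists_eq_succ_of_ne_zero hc
    have e4 : LΔ (PC x.1) (v 0) (v 2) (v 1) ↔ LΔ (PC y.1) (v 0) (v 2) (v 1) := by
      rw [ha', hm', hc']
      exact h1 a c m
    rw [e4]
  · intro y hy
    have mlt : ∀ {x : ℕ}, plt y.1 (x + 1) 0 → False := fun h => hy.lt_ne_zero h rfl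
    have sS : ∀ u v, y.1 ![0, u + 1, v + 1] = true ↔ plt y.1 (u + 1) (v + 1) := by
      intro u v
      constructor
      · exact fun h => Or.inr h
      · exact fun h => hy.lt_pos h (Nat.succ_ne_zero u)
    refine ⟨?_, ?_, ?_, ?_, ?_, ?_, ?_, ?_⟩
    · intro u w huw
      exact ⟨(2, u + 1, 0), rfl, rfl, fun h => huw (Nat.succ_injective (Eq.symm h))⟩
    · intro u v
      exact lam_irr _ _ _
    · intro u v w
      exact lam_symm _
    · intro u v w
      exact lam_c2 hy.laminar
    · intro u v w h z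
      exact lam_c3 h (z + 1)
    · rintro i u b w ⟨j, h1, h2, h3⟩
      by_cases hub : u = b
      · rw [hub]
      have hub' : u + 1 ≠ b + 1 := fun e => hub (Nat.succ_injective e)
      unfold PS
      by_cases hi : i = 0
      · simp only [if_pos hi]
        rw [sS, sS]
        exact ⟨fun h => absurd h (hy.up h2 h1 hub'.symm h3), fun h => absurd h (hy.up h1 h2 hub' h3)⟩
      · simp only [if_neg hi]
        have h4 := hy.root h1 h2 h3 (Nat.succ_ne_zero w)
        constructor
        · intro h5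
          by_contra h6
          exact hy.dir_trans (Nat.succ_ne_zero u) (hy.dir_symm h4) h6 h5
        · intro h5
          by_contra h6
          exact hy.dir_trans (Nat.succ_ne_zero b) h4 h6 h5
    · rintro i u b w ⟨j, h1, h2, h3⟩
      by_cases hub : u = b
      · rw [hub]
      unfold PS
      by_cases hi : i = 0
      · simp only [if_pos hi]
        rw [sS, sS]
        exact ⟨fun h => hy.down h2 h1 h3 h, fun h => hy.down h1 h2 h3 h⟩
      · simp only [if_neg hi]
        have h4 := hy.root h1 h2 h3 (Nat.succ_ne_zero w)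
        constructor
        · intro h5
          by_contra h6
          exact hy.dir_trans (Nat.succ_ne_zero u) h6 h4 h5
        · intro h5
          by_contra h6
          exact hy.dir_trans (Nat.succ_ne_zero b) h6 (hy.dir_symm h4) h5
    · intro e he hn F hF
      -- the order at a node is a star
      have star : ∀ l m, l ≠ m → plt y.1 (e l + 1) (e m + 1) →
          ∀ n, n ≠ l → plt y.1 (e l + 1) (e n + 1) := by
        intro l m hlm hlt n hnl
        by_cases hnm : n = m
        · rw [hnm]; exact hlt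
        have h1 := hn l m n hlm (Ne.symm hnl) (Ne.symm hnm)
        by_contra h2
        apply h1
        refine ⟨(0, e l + 1, 0), Or.inl rfl, Or.inr hlt, ?_⟩
        rintro (h3 | h3)
        · exact hnl (he (Nat.succ_injective h3)).symm
        · exact h2 h3
      have uni : ∀ l m, l ≠ m → ¬ y.1 ![e l + 1, 0, e m + 1] = true →
          ∀ n n', n ≠ n' → ¬ y.1 ![e n + 1, 0, e n' + 1] = true := by
        intro l m hlm h1
        have h2 : ∀ n, ¬ y.1 ![e l + 1, 0, e n + 1] = true := by
          intro n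
          by_cases hnl : n = l
          · rw [hnl]; exact fun h => hy.irr' h
          by_cases hnm : n = m
          · rw [hnm]; exact h1
          have h3 := hn l m n hlm (Ne.symm hnl) (Ne.symm hnm)
          by_contra h4
          apply h3
          refine ⟨(1, 0, e l + 1), ⟨Or.inl ⟨rfl, Nat.succ_ne_zero _⟩,
            Or.inl ⟨rfl, Nat.succ_ne_zero _⟩, fun h => hy.irr' h⟩,
            ⟨Or.inl ⟨rfl, Nat.succ_ne_zero _⟩, Or.inl ⟨rfl, Nat.succ_ne_zero _⟩, h1⟩, ?_⟩
          rintro ⟨-, -, h5⟩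
          exact h5 h4
        intro n n' _
        exact hy.dir_trans (Nat.succ_ne_zero (e l)) (hy.dir_symm (h2 n)) (h2 n')
      have uni' : ∀ l m n n', l ≠ m → n ≠ n' → (y.1 ![e l + 1, 0, e m + 1] = true ↔
          y.1 ![e n + 1, 0, e n' + 1] = true) := by
        intro l m n n' h1 h2
        constructor
        · intro h3
          by_contra h4
          exact uni n n' h2 h4 l m h1 h3
        · intro h3
          by_contra h4
          exact uni l m h1 h4 n n' h2 h3
      by_cases hs : ∃ l ∈ F, ∃ m, l ≠ m ∧ plt y.1 (e l + 1) (e m + 1)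
      · obtain ⟨l, hl, m, hlm, hlt⟩ := hs
        have hst := star l m hlm hlt
        refine ⟨F.erase l, Finset.erase_subset _ _, ?_, ?_, ?_⟩
        · rw [Finset.card_erase_of_mem hl]; omega
        · rw [Finset.card_erase_of_mem hl]; omega
        · intro u hu v hv w hw hwX i
          have hwl : w = l := by
            by_contra hne
            exact hwX (Finset.mem_erase.2 ⟨hne, hw⟩)
          subst hwl
          have hul := (Finset.mem_erase.1 hu).1
          have hvl := (Finset.mem_erase.1 hv).1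
          unfold PS
          by_cases hi : i = 0
          · simp only [if_pos hi]
            rw [sS, sS, sS, sS]
            refine ⟨⟨fun h => (hy.lt_asymm h (hst u hul)).elim,
              fun h => (hy.lt_asymm h (hst v hvl)).elim⟩, ⟨fun _ => hst v hvl, fun _ => hst u hul⟩⟩
          · simp only [if_neg hi]
            exact ⟨uni' _ _ _ _ hul hvl, uni' _ _ _ _ (Ne.symm hul) (Ne.symm hvl)⟩
      · have h2 : 2 ≤ F.card := by omega
        obtain ⟨X, hX, hXc⟩ := Finset.exists_subset_card_eq h2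
        refine ⟨X, hX, by omega, by omega, ?_⟩
        intro u hu v hv w hw hwX i
        have huw : u ≠ w := fun e => hwX (e ▸ hu)
        have hvw : v ≠ w := fun e => hwX (e ▸ hv)
        have hno : ∀ a ∈ F, ∀ c, a ≠ c → ¬ plt y.1 (e a + 1) (e c + 1) :=
          fun a ha c hac h => hs ⟨a, ha, c, hac, h⟩
        unfold PS
        by_cases hi : i = 0
        · simp only [if_pos hi]
          rw [sS, sS, sS, sS]
          refine ⟨⟨fun h => absurd h (hno u (hX hu) w huw), fun h => absurd h (hno v (hX hv) w hvw)⟩,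
            ⟨fun h => absurd h (hno w hw u huw.symm), fun h => absurd h (hno w hw v hvw.symm)⟩⟩
        · simp only [if_neg hi]
          exact ⟨uni' _ _ _ _ huw hvw, uni' _ _ _ _ huw.symm hvw.symm⟩

end Pool.Agent.TH578.VT
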