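import Pool.Agent.H31R3.AL.Transfer
import Pool.Agent.W875.TS.COI
import Pool.Agent.H566W.Ana

set_option autoImplicit false
set_option linter.unusedVariables false

/-! Rooting: the perfect set dichotomy passes from rooted structures to unrooted ones. -/

namespace Pool.Agent.TH578.VT

open Set MeasureTheory
open Pool.Agent.H533R2.VO (RS RIso)
open Pool.Agent.H533R2.VS (US UIso UDich VCu)

/-- `σ` is an isomorphism. -/
def IsoBy {a : ℕ → ℕ} (σ : Equiv.Perm ℕ) (x y : US a) : Prop :=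
  (∀ (i : ℕ) (v : Fin (a i) → ℕ), y.1 i (⇑σ ∘ v) = x.1 i v) ∧ ∀ i u, y.2 i (σ u) = x.2 i u

theorem isoBy_uniq {a : ℕ → ℕ} {σ : Equiv.Perm ℕ} {x y y' : US a} (h : IsoBy σ x y)
    (h' : IsoBy σ x y') : y = y' := by
  refine Prod.ext ?_ ?_
  · funext i v
    have e : (⇑σ ∘ (⇑σ.symm ∘ v)) = v := by
      funext k
      simp
    have h1 := h.1 i (⇑σ.symm ∘ v)
    have h2 := h'.1 i (⇑σ.symm ∘ v)
    rw [e] at h1 h2
    rw [h1, h2]
  · funext i u
    have h1 := h.2 i (σ.symm u)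
    have h2 := h'.2 i (σ.symm u)
    rw [σ.apply_symm_apply] at h1 h2
    rw [h1, h2]

theorem isoBy_symm {a : ℕ → ℕ} {σ : Equiv.Perm ℕ} {x y : US a} (h : IsoBy σ x y) :
    IsoBy σ.symm y x := by
  refine ⟨fun i v => ?_, fun i u => ?_⟩
  · rw [← h.1 i (⇑σ.symm ∘ v)]
    have e : (⇑σ ∘ (⇑σ.symm ∘ v)) = v := by
      funext k
      simp
    rw [e]
  · rw [← h.2 i (σ.symm u), σ.apply_symm_apply]

/-- The permutation fixing `0` and acting as `σ` on the rest. -/
def lift (σ : Equiv.Perm ℕ) : Equiv.Perm ℕ where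
  toFun n := match n with
    | 0 => 0
    | n + 1 => σ n + 1
  invFun n := match n with
    | 0 => 0
    | n + 1 => σ.symm n + 1
  left_inv n := by cases n <;> simp
  right_inv n := by cases n <;> simp

@[simp] theorem lift_zero (σ : Equiv.Perm ℕ) : lift σ 0 = 0 := rfl

@[simp] theorem lift_succ (σ : Equiv.Perm ℕ) (n : ℕ) : lift σ (n + 1) = σ n + 1 := rfl

/-- Every permutation fixing `0` is a lift. -/
theorem exists_lift (τ : Equiv.Perm ℕ) (h : τ 0 = 0) : ∃ σ : Equiv.Perm ℕ, lift σ = τ := by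
  have h0 : ∀ n, τ (n + 1) ≠ 0 := fun n e => by
    have := τ.injective (e.trans h.symm)
    omega
  have h' : τ.symm 0 = 0 := by rw [Equiv.symm_apply_eq]; exact h.symm
  have h0' : ∀ n, τ.symm (n + 1) ≠ 0 := fun n e => by
    have := τ.symm.injective (e.trans h'.symm)
    omega
  refine ⟨⟨fun n => τ (n + 1) - 1, fun n => τ.symm (n + 1) - 1, fun n => ?_, fun n => ?_⟩, ?_⟩
  · show τ.symm (τ (n + 1) - 1 + 1) - 1 = n
    rw [Nat.sub_add_cancel (Nat.one_le_iff_ne_zero.2 (h0 n)), τ.symm_apply_apply]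
    rfl
  · show τ (τ.symm (n + 1) - 1 + 1) - 1 = n
    rw [Nat.sub_add_cancel (Nat.one_le_iff_ne_zero.2 (h0' n)), τ.apply_symm_apply]
    rfl
  · ext n
    cases n with
    | zero => exact h.symm
    | succ n =>
      show τ (n + 1) - 1 + 1 = τ (n + 1)
      exact Nat.sub_add_cancel (Nat.one_le_iff_ne_zero.2 (h0 n))

/-- The rooting principle. -/
theorem rooting {Y : Type} [Nonempty Y] [TopologicalSpace Y] [PolishSpace Y]
    [MeasurableSpace Y] [BorelSpace Y] {a : ℕ → ℕ}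
    (act : Equiv.Perm ℕ → Y → Y)
    (act_mul : ∀ σ τ y, act (σ * τ) y = act σ (act τ y))
    (act_inv : ∀ σ y, act σ⁻¹ (act σ y) = y)
    (hana : ∀ u : (ℕ → Bool) → Y, Measurable u →
      AnalyticSet {p : (ℕ → Bool) × (ℕ → Bool) | ∃ σ : Equiv.Perm ℕ, u p.2 = act σ (u p.1)})
    (V : Y → Prop) (VX : RS a → Prop) (hVX : VCu VX)
    (R : Y → US a) (hR : Measurable R) (hinj : ∀ x y, V x → V y → R x = R y → x = y)
    (hRe : ∀ σ y, V y → IsoBy σ (R y) (R (act (lift σ) y)))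
    (hK : ∀ y, V y → VX (R y).1)
    (B : Set Y) (hB : MeasurableSet B) (hBV : ∀ x ∈ B, V x)
    (hBi : ∀ x ∈ B, ∀ σ, act σ x ∈ B) :
    (∃ f : ℕ → Y, ∀ x ∈ B, ∃ n, ∃ σ : Equiv.Perm ℕ, x = act σ (f n)) ∨
    (∃ g : (ℕ → Bool) → Y, Continuous g ∧ (∀ A, g A ∈ B) ∧
      ∀ A A', (∃ σ : Equiv.Perm ℕ, g A' = act σ (g A)) → A = A') := by
  classical
  have hinjB : InjOn R B := fun x hx y hy h => hinj x y (hBV x hx) (hBV y hy) h
  have hB1 : MeasurableSet (R '' B) := hB.image_of_measurable_injOn hR hinjB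
  have hone : ∀ (x y : US a) (σ : Equiv.Perm ℕ), IsoBy σ x y → x ∈ R '' B → y ∈ R '' B := by
    rintro x y σ h ⟨x0, hx0, rfl⟩
    exact ⟨act (lift σ) x0, hBi x0 hx0 _, isoBy_uniq (hRe σ x0 (hBV _ hx0)) h⟩
  rcases hVX (R '' B) hB1 (fun x y ⟨σ, h⟩ => ⟨hone x y σ h, hone y x _ (isoBy_symm h)⟩)
    (by rintro _ ⟨x, hx, rfl⟩; exact hK x (hBV x hx)) with ⟨f, hf⟩ | ⟨g, hg, hgB, hgi⟩
  · left
    by_cases hne : B.Nonempty
    · obtain ⟨x0, hx0⟩ := hne
      have hch : ∀ n, ∃ y : Y, f n ∈ R '' B → y ∈ B ∧ R y = f n := by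
        intro n
        by_cases h : f n ∈ R '' B
        · obtain ⟨y, hy, hy2⟩ := h
          exact ⟨y, fun _ => ⟨hy, hy2⟩⟩
        · exact ⟨x0, fun h' => absurd h' h⟩
      choose f' hf' using hch
      refine ⟨f', fun x hx => ?_⟩
      obtain ⟨n, σ, hn⟩ := hf (R x) ⟨x, hx, rfl⟩
      have hfn : f n ∈ R '' B := hone _ _ _ (isoBy_symm (x := f n) (y := R x) hn) ⟨x, hx, rfl⟩
      obtain ⟨h1, h2⟩ := hf' n hfn
      refine ⟨n, lift σ, ?_⟩
      refine hinj _ _ (hBV x hx) (hBV _ (hBi _ h1 _)) ?_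
      refine isoBy_uniq (σ := σ) (x := R (f' n)) ?_ (hRe σ _ (hBV _ h1))
      rw [h2]
      exact hn
    · exact ⟨fun _ => Classical.arbitrary Y, fun x hx => absurd ⟨x, hx⟩ hne⟩
  · right
    choose X hXB hXc using hgB
    have hsb : StandardBorelSpace B := hB.standardBorel
    have hcB : Measurable fun x : B => R x.1 := hR.comp measurable_subtype_coe
    have hme : MeasurableEmbedding fun x : B => R x.1 :=
      hcB.measurableEmbedding fun x y h => Subtype.ext (hinjB x.2 y.2 h)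
    have hX : Measurable fun A => (⟨X A, hXB A⟩ : B) := by
      rw [← hme.measurable_comp_iff]
      have e : ((fun x : B => R x.1) ∘ fun A => (⟨X A, hXB A⟩ : B)) = g := by
        funext A
        exact hXc A
      rw [e]
      exact hg.measurable
    have hX2 : Measurable X := measurable_subtype_coe.comp hX
    have han := hana X hX2
    obtain ⟨h0, hh1, hh2⟩ := Pool.Agent.H566W.perfect_independent
      (fun A A' => ∃ σ : Equiv.Perm ℕ, X A' = act σ (X A)) han (by
        intro A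
        choose! τ hτ using fun (A' : ℕ → Bool) (h : ∃ σ : Equiv.Perm ℕ, X A' = act σ (X A)) => h
        refine Set.countable_of_injective_of_countable_image
          (f := fun A' => (τ A').symm 0) ?_ (Set.to_countable _)
        intro A1 hA1 A2 hA2 he
        have e1 := hτ A1 hA1
        have e2 := hτ A2 hA2
        have he' : (τ A1).symm 0 = (τ A2).symm 0 := he
        have h3 : (τ A2 * (τ A1)⁻¹) 0 = 0 := by
          show τ A2 ((τ A1).symm 0) = 0
          rw [he']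
          exact (τ A2).apply_symm_apply 0
        obtain ⟨σ, hσ⟩ := exists_lift _ h3
        have h4 : X A2 = act (lift σ) (X A1) := by
          rw [hσ, act_mul, e1, act_inv, ← e2]
        apply hgi
        refine ⟨σ, ?_⟩
        have h5 := hRe σ (X A1) (hBV _ (hXB A1))
        rw [← h4, hXc, hXc] at h5
        exact h5)
    obtain ⟨h, h1, h2⟩ := Pool.Agent.H31R3.AL.cont_of_borel (fun A => X (h0 A))
      (hX2.comp hh1.measurable)
    refine ⟨_, h2, fun A => hXB _, ?_⟩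
    rintro A A' ⟨σ, hσ⟩
    apply h1
    by_contra hne
    exact hh2 _ _ hne ⟨σ, hσ⟩

end Pool.Agent.TH578.VT
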