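import Pool.Agent.TH578.VT.Root

set_option autoImplicit false
set_option linter.unusedVariables false

/-! The rooting principle for spaces of functions with unary predicates. -/

namespace Pool.Agent.TH578.VT

open Set MeasureTheory
open Pool.Agent.H533R2.VO (RS RIso)
open Pool.Agent.H533R2.VS (US UIso UDich VCu p2 DecG)
open Pool.Agent.W875.TS (IsTree p3)

/-- A function of `k` variables with values in `Z`, and unary predicates. -/
abbrev Sp (k : ℕ) (Z : Type) : Type := ((Fin k → ℕ) → Z) × (ℕ → ℕ → Bool)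

/-- `σ` is an isomorphism from `x` to `y`. -/
def IsIso {k : ℕ} {Z : Type} (σ : Equiv.Perm ℕ) (x y : Sp k Z) : Prop :=
  (∀ v, y.1 (⇑σ ∘ v) = x.1 v) ∧ ∀ i u, y.2 i (σ u) = x.2 i u

/-- Relabelling. -/
def act {k : ℕ} {Z : Type} (σ : Equiv.Perm ℕ) (y : Sp k Z) : Sp k Z :=
  (fun v => y.1 (⇑σ.symm ∘ v), fun i u => y.2 i (σ.symm u))

theorem act_iso {k : ℕ} {Z : Type} (σ : Equiv.Perm ℕ) (y : Sp k Z) : IsIso σ y (act σ y) := by
  refine ⟨fun v => ?_, fun i u => ?_⟩
  · have e : (⇑σ.symm ∘ (⇑σ ∘ v)) = v := by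
      funext j
      simp
    show y.1 (⇑σ.symm ∘ (⇑σ ∘ v)) = y.1 v
    rw [e]
  · show y.2 i (σ.symm (σ u)) = y.2 i u
    rw [σ.symm_apply_apply]

theorem iso_iff {k : ℕ} {Z : Type} (σ : Equiv.Perm ℕ) (x y : Sp k Z) :
    IsIso σ x y ↔ y = act σ x := by
  constructor
  · rintro ⟨h1, h2⟩
    refine Prod.ext ?_ ?_
    · funext v
      have h := h1 (⇑σ.symm ∘ v)
      have e : (⇑σ ∘ (⇑σ.symm ∘ v)) = v := by
        funext j
        simp
      rw [e] at h
      exact h
    · funext i u
      have h := h2 i (σ.symm u)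
      rw [σ.apply_symm_apply] at h
      exact h
  · rintro rfl
    exact act_iso σ x

theorem act_mul {k : ℕ} {Z : Type} (σ τ : Equiv.Perm ℕ) (y : Sp k Z) :
    act (σ * τ) y = act σ (act τ y) := rfl

theorem act_inv {k : ℕ} {Z : Type} (σ : Equiv.Perm ℕ) (y : Sp k Z) :
    act σ⁻¹ (act σ y) = y := by
  rw [← act_mul]
  have : σ⁻¹ * σ = 1 := by simp
  rw [this]
  rfl

section
variable {k : ℕ} {Z : Type} [TopologicalSpace Z] [PolishSpace Z] [MeasurableSpace Z] [BorelSpace Z]

theorem bor_Sp : BorelSpace (Sp k Z) := by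
  have h1 : BorelSpace ((Fin k → ℕ) → Z) := Pi.borelSpace
  have h2 : BorelSpace (ℕ → ℕ → Bool) := inferInstance
  exact Prod.borelSpace

omit [MeasurableSpace Z] [BorelSpace Z] in
theorem pol_Sp : PolishSpace (Sp k Z) := by
  have h1 : PolishSpace (ℕ → Bool) := Pool.Agent.H533R2.VS.kis_pB ℕ
  have h2 : PolishSpace (ℕ → ℕ → Bool) := inferInstance
  have h3 : PolishSpace ((Fin k → ℕ) → Z) := inferInstance
  exact inferInstanceAs (PolishSpace (((Fin k → ℕ) → Z) × (ℕ → ℕ → Bool)))

/-- Isomorphism of Borel families is analytic. -/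
theorem analytic_act (u : (ℕ → Bool) → Sp k Z) (hu : Measurable u) :
    AnalyticSet {p : (ℕ → Bool) × (ℕ → Bool) | ∃ σ : Equiv.Perm ℕ, u p.2 = act σ (u p.1)} := by
  set Ω : Type := ((ℕ → Bool) × (ℕ → Bool)) × ((ℕ → ℕ) × (ℕ → ℕ)) with hΩ
  have m1 : ∀ a b : ℕ, Measurable fun q : Ω => q.2.1 a = b := fun a b => by
    have h : Measurable fun q : Ω => q.2.1 a :=
      (measurable_pi_apply a).comp (measurable_fst.comp measurable_snd)
    exact measurableSet_setOfPred.1 (h (measurableSet_singleton b))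
  have m2 : ∀ a b : ℕ, Measurable fun q : Ω => q.2.2 a = b := fun a b => by
    have h : Measurable fun q : Ω => q.2.2 a :=
      (measurable_pi_apply a).comp (measurable_snd.comp measurable_snd)
    exact measurableSet_setOfPred.1 (h (measurableSet_singleton b))
  have m3 : ∀ (f g : Ω → Bool), Measurable f → Measurable g →
      Measurable fun q : Ω => f q = g q := fun f g hf hg =>
    measurableSet_setOfPred.1 (measurableSet_eq_fun hf hg)
  have m4 : ∀ (f g : Ω → Z), Measurable f → Measurable g →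
      Measurable fun q : Ω => f q = g q := fun f g hf hg =>
    measurableSet_setOfPred.1 (measurableSet_eq_fun hf hg)
  have mu : Measurable fun q : Ω => u q.1.1 := hu.comp (measurable_fst.comp measurable_fst)
  have mv : Measurable fun q : Ω => u q.1.2 := hu.comp (measurable_snd.comp measurable_fst)
  let P : Ω → Prop := fun q => (∀ a b, q.2.1 a = b → q.2.2 b = a) ∧
    (∀ a b, q.2.2 a = b → q.2.1 b = a) ∧
    (∀ w t : Fin k → ℕ, (∀ j, q.2.1 (w j) = t j) → (u q.1.2).1 t = (u q.1.1).1 w) ∧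
    ∀ i a c, q.2.1 a = c → (u q.1.2).2 i c = (u q.1.1).2 i a
  have hP : Measurable P := by
    refine (Measurable.forall fun a => Measurable.forall fun b => (m1 a b).imp (m2 b a)).and ?_
    refine (Measurable.forall fun a => Measurable.forall fun b => (m2 a b).imp (m1 b a)).and ?_
    refine (Measurable.forall fun w : Fin k → ℕ => Measurable.forall fun t : Fin k → ℕ =>
      (Measurable.forall fun j : Fin k => m1 (w j) (t j)).imp (m4 _ _ ?_ ?_)).and ?_
    · exact (measurable_pi_apply t).comp (measurable_fst.comp mv)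
    · exact (measurable_pi_apply w).comp (measurable_fst.comp mu)
    refine Measurable.forall fun i => Measurable.forall fun a => Measurable.forall fun c =>
      (m1 a c).imp (m3 _ _ ?_ ?_)
    · exact (measurable_pi_apply c).comp ((measurable_pi_apply i).comp
        (measurable_snd.comp mv))
    · exact (measurable_pi_apply a).comp ((measurable_pi_apply i).comp
        (measurable_snd.comp mu))
  have h2 : {p : (ℕ → Bool) × (ℕ → Bool) | ∃ σ : Equiv.Perm ℕ, u p.2 = act σ (u p.1)} =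
      Prod.fst '' {q : Ω | P q} := by
    ext p
    constructor
    · rintro ⟨σ, hσ⟩
      have hσ' := (iso_iff σ (u p.1) (u p.2)).2 hσ
      refine ⟨(p, (⇑σ, ⇑σ.symm)), ⟨?_, ?_, ?_, ?_⟩, rfl⟩
      · rintro a b rfl; exact σ.symm_apply_apply a
      · rintro a b rfl; exact σ.apply_symm_apply a
      · intro w t hwt
        have : t = ⇑σ ∘ w := funext fun j => (hwt j).symm
        rw [this]; exact hσ'.1 w
      · rintro i a c rfl; exact hσ'.2 i a
    · rintro ⟨⟨p', s, t⟩, ⟨h1, h2, h3, h4⟩, rfl⟩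
      refine ⟨⟨s, t, fun a => h1 a _ rfl, fun a => h2 a _ rfl⟩, (iso_iff _ _ _).1 ?_⟩
      exact ⟨fun w => h3 w _ fun j => rfl, fun i a => h4 i a _ rfl⟩
  rw [h2]
  exact (measurableSet_setOfPred.2 hP).analyticSet_image measurable_fst

end

/-- The arities of the rooted structures: one ternary relation, otherwise binary relations. -/
def aT : ℕ → ℕ
  | 0 => 3
  | _ + 1 => 2

/-- A C-relation with binary relations compatible with its cones. -/
structure TreeLike (Δ : ℕ → ℕ → ℕ → Prop) (S : ℕ → ℕ → ℕ → Prop) : Prop where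
  refl : ∀ u w, u ≠ w → Δ u u w
  irr : ∀ u v, ¬ Δ u v u
  symm : ∀ u v w, Δ u v w → Δ v u w
  c2 : ∀ u v w, Δ u v w → ¬ Δ u w v
  c3 : ∀ u v w, Δ u v w → ∀ z, Δ u v z ∨ Δ z v w
  mod1 : ∀ i u b w, Δ u b w → (S i b w ↔ S i u w)
  mod2 : ∀ i u b w, Δ u b w → (S i w b ↔ S i w u)
  nodes : ∀ e : ℕ → ℕ, Function.Injective e →
    (∀ l m n, l ≠ m → l ≠ n → m ≠ n → ¬ Δ (e l) (e m) (e n)) →
    ∀ F : Finset ℕ, (F.card = 3 ∨ F.card = 4) →
      ∃ X ⊆ F, 1 < X.card ∧ X.card < F.card ∧ ∀ u ∈ X, ∀ v ∈ X, ∀ w ∈ F, w ∉ X →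
        ∀ i, (S i (e u) (e w) ↔ S i (e v) (e w)) ∧ (S i (e w) (e u) ↔ S i (e w) (e v))

open Classical in
/-- The rooted structure. -/
noncomputable def mk (Δ : ℕ → ℕ → ℕ → Prop) (S : ℕ → ℕ → ℕ → Prop) : RS aT := fun i =>
  match i with
  | 0 => fun t : Fin 3 → ℕ => decide (Δ (t 0) (t 1) (t 2))
  | i + 1 => fun t : Fin 2 → ℕ => decide (S i (t 0) (t 1))

open Classical in
theorem mk_zero (Δ : ℕ → ℕ → ℕ → Prop) (S : ℕ → ℕ → ℕ → Prop) (u v w : ℕ) :
    mk Δ S 0 (p3 u v w) = decide (Δ u v w) := rfl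

open Classical in
theorem mk_succ (Δ : ℕ → ℕ → ℕ → Prop) (S : ℕ → ℕ → ℕ → Prop) (i : ℕ) (t : Fin 2 → ℕ) :
    mk Δ S (i + 1) t = decide (S i (t 0) (t 1)) := rfl

open Classical in
theorem tree_mk {Δ : ℕ → ℕ → ℕ → Prop} {S : ℕ → ℕ → ℕ → Prop} (h : TreeLike Δ S) :
    IsTree 0 (DecG : RS aT → Prop) (mk Δ S) where
  refl u w huw := by rw [mk_zero]; exact decide_eq_true (h.refl u w huw)
  irr u v := by rw [mk_zero]; exact decide_eq_false (h.irr u v)
  symm u v w huvw := by
    rw [mk_zero] at huvw ⊢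
    exact decide_eq_true (h.symm u v w (of_decide_eq_true huvw))
  c2 u v w huvw := by
    rw [mk_zero] at huvw ⊢
    exact decide_eq_false (h.c2 u v w (of_decide_eq_true huvw))
  c3 u v w huvw z := by
    rw [mk_zero] at huvw
    rw [mk_zero, mk_zero]
    rcases h.c3 u v w (of_decide_eq_true huvw) z with h1 | h1
    · exact Or.inl (decide_eq_true h1)
    · exact Or.inr (decide_eq_true h1)
  mod i hi t k l b hδ := by
    cases i with
    | zero => exact absurd rfl hi
    | succ i =>
      rw [mk_zero] at hδ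
      have hΔ := of_decide_eq_true hδ
      have key : ∀ (t : Fin 2 → ℕ) (k l : Fin 2), Δ (t k) b (t l) →
          (S i (Function.update t k b 0) (Function.update t k b 1) ↔ S i (t 0) (t 1)) := by
        intro t k l hΔ
        fin_cases k <;> fin_cases l
        · exact absurd hΔ (h.irr _ _)
        · exact h.mod1 i _ _ _ hΔ
        · exact h.mod2 i _ _ _ hΔ
        · exact absurd hΔ (h.irr _ _)
      exact decide_eq_decide.2 (key t k l hΔ)
  nodes e he h1 h2 := by
    refine ⟨fun i hi t => ?_, fun F hF => ?_⟩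
    · cases i with
      | zero => simp
      | succ i => exact absurd rfl hi
    · obtain ⟨X, hX1, hX2, hX3, hX4⟩ := h.nodes e he (fun l m n a b c => by
        have := h1 l m n a b c
        rw [mk_zero] at this
        exact of_decide_eq_false this) F hF
      refine ⟨X, hX1, hX2, hX3, fun u hu v hv w hw hwX i => ?_⟩
      cases i with
      | zero => exact ⟨by simp [aT], by simp [aT]⟩
      | succ i =>
        have huw : u ≠ w := fun e => hwX (e ▸ hu)
        have hvw : v ≠ w := fun e => hwX (e ▸ hv)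
        have key : ∀ a b : ℕ, a ≠ b → (if aT (i + 1) = 2 then
            (if i + 1 ≠ 0 ∧ ∃ j l : Fin (aT (i + 1)), (p2 a b : Fin (aT (i + 1)) → ℕ) j ≠ p2 a b l
              then mk Δ S (i + 1) (e ∘ p2 a b) else false) else false) =
            decide (S i (e a) (e b)) := by
          intro a b hab
          have h2 : aT (i + 1) = 2 := rfl
          refine (if_pos h2).trans ((if_pos ⟨Nat.succ_ne_zero i, ?_⟩).trans rfl)
          exact ⟨(0 : Fin 2), (1 : Fin 2), hab⟩
        refine ⟨?_, ?_⟩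
        · refine (key u w huw).trans (Eq.trans ?_ (key v w hvw).symm)
          exact decide_eq_decide.2 (hX4 u hu v hv w hw hwX i).1
        · refine (key w u huw.symm).trans (Eq.trans ?_ (key w v hvw.symm).symm)
          exact decide_eq_decide.2 (hX4 u hu v hv w hw hwX i).2

theorem aT_pos (i : ℕ) : 0 < aT i := by
  cases i with
  | zero => exact Nat.succ_pos 2
  | succ i => exact Nat.succ_pos 1

theorem vcu_tree : VCu (IsTree 0 (DecG : RS aT → Prop)) :=
  Pool.Agent.W875.TS.ts_tree aT aT_pos 0 rfl _ (Pool.Agent.H533R2.VS.vs_dec aT)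

/-- The perfect set dichotomy for the isomorphism-invariant Borel classes contained in `K`, with
unary predicates. -/
def Vaught {k : ℕ} {Z : Type} [TopologicalSpace Z] [MeasurableSpace Z]
    (K : ((Fin k → ℕ) → Z) → Prop) : Prop :=
  ∀ B : Set (Sp k Z), MeasurableSet B → (∀ x y σ, IsIso σ x y → x ∈ B → y ∈ B) →
    (∀ x ∈ B, K x.1) →
    (∃ f : ℕ → Sp k Z, ∀ x ∈ B, ∃ (n : ℕ) (σ : Equiv.Perm ℕ), IsIso σ (f n) x) ∨
    (∃ g : (ℕ → Bool) → Sp k Z, Continuous g ∧ (∀ c, g c ∈ B) ∧
      ∀ c d, (∃ σ : Equiv.Perm ℕ, IsIso σ (g c) (g d)) → c = d)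

section
variable {k : ℕ} {Z : Type} [TopologicalSpace Z] [PolishSpace Z] [MeasurableSpace Z] [BorelSpace Z]
  [Nonempty Z]

open Classical in
/-- Rooting, concretely: `Δ`, `S` and `U` are read off from `y` with the point `0` as the root; the
other points are `u + 1`. -/
theorem rooting' (K : ((Fin k → ℕ) → Z) → Prop)
    (Δ : Sp k Z → ℕ → ℕ → ℕ → Prop) (S : Sp k Z → ℕ → ℕ → ℕ → Prop) (U : Sp k Z → ℕ → ℕ → Prop)
    (mΔ : ∀ u v w, Measurable fun y => Δ y u v w) (mS : ∀ i u v, Measurable fun y => S y i u v)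
    (mU : ∀ i u, Measurable fun y => U y i u)
    (eΔ : ∀ σ y u v w, Δ (act (lift σ) y) (σ u) (σ v) (σ w) ↔ Δ y u v w)
    (eS : ∀ σ y i u v, S (act (lift σ) y) i (σ u) (σ v) ↔ S y i u v)
    (eU : ∀ σ y i u, U (act (lift σ) y) i (σ u) ↔ U y i u)
    (hinj : ∀ x y, K x.1 → K y.1 → (∀ u v w, Δ x u v w ↔ Δ y u v w) →
      (∀ i u v, S x i u v ↔ S y i u v) → (∀ i u, U x i u ↔ U y i u) → x = y)
    (hT : ∀ y, K y.1 → TreeLike (Δ y) (S y)) : Vaught K := by
  intro B hB hBi hBV
  have hPol := pol_Sp (k := k) (Z := Z)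
  have hBor := bor_Sp (k := k) (Z := Z)
  let R : Sp k Z → US aT := fun y => (mk (Δ y) (S y), fun i u => decide (U y i u))
  have mdec : ∀ P : Sp k Z → Prop, Measurable P → Measurable fun y => decide (P y) := by
    intro P hP
    refine measurable_to_bool ?_
    have e : (fun y => decide (P y)) ⁻¹' {true} = {y | P y} := by
      ext y
      simp
    rw [e]
    exact measurableSet_setOfPred.2 hP
  have hR : Measurable R := by
    refine Measurable.prodMk ?_ ?_
    · refine measurable_pi_iff.2 fun i => ?_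
      cases i with
      | zero => exact measurable_pi_iff.2 fun t => mdec _ (mΔ _ _ _)
      | succ i => exact measurable_pi_iff.2 fun t => mdec _ (mS _ _ _)
    · exact measurable_pi_iff.2 fun i => measurable_pi_iff.2 fun u => mdec _ (mU _ _)
  have hRe : ∀ (σ : Equiv.Perm ℕ) (y : Sp k Z), IsoBy σ (R y) (R (act (lift σ) y)) := by
    intro σ y
    refine ⟨fun i v => ?_, fun i u => decide_eq_decide.2 (eU σ y i u)⟩
    cases i with
    | zero => exact decide_eq_decide.2 (eΔ σ y _ _ _)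
    | succ i => exact decide_eq_decide.2 (eS σ y i _ _)
  have main := rooting (Y := Sp k Z) (a := aT) act (fun σ τ y => act_mul σ τ y)
    (fun σ y => act_inv σ y) (fun u hu => analytic_act u hu) (fun y => K y.1)
    (IsTree 0 (DecG : RS aT → Prop)) vcu_tree R hR (by
      intro x y hx hy h
      refine hinj x y hx hy ?_ ?_ ?_
      · intro u v w
        have := congrFun (congrFun (congrArg Prod.fst h) 0) (p3 u v w)
        exact decide_eq_decide.1 this
      · intro i u v
        have := congrFun (congrFun (congrArg Prod.fst h) (i + 1)) (p2 u v)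
        exact decide_eq_decide.1 this
      · intro i u
        have := congrFun (congrFun (congrArg Prod.snd h) i) u
        exact decide_eq_decide.1 this)
    (fun σ y _ => hRe σ y) (fun y hy => tree_mk (hT y hy)) B hB hBV
    (fun x hx σ => hBi _ _ σ (act_iso σ x) hx)
  rcases main with ⟨f, hf⟩ | ⟨g, h1, h2, h3⟩
  · left
    refine ⟨f, fun x hx => ?_⟩
    obtain ⟨n, σ, h⟩ := hf x hx
    exact ⟨n, σ, (iso_iff _ _ _).2 h⟩
  · right
    exact ⟨g, h1, h2, fun c d ⟨σ, h⟩ => h3 c d ⟨σ, (iso_iff _ _ _).1 h⟩⟩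

end

end Pool.Agent.TH578.VT
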